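import Pool.Agent.H983R2.IM.Defs

set_option autoImplicit false

/-!
Task CON: convex cone and gauge invariance.
-/

namespace Pool.Agent.H983R2.IM

variable {V : Type} [Fintype V] [DecidableEq V]

theorem con_h (x1 y1 x2 y2 : ℝ) (hx1 : 0 ≤ x1) (hy1 : 0 ≤ y1) (hx2 : 0 ≤ x2) (hy2 : 0 ≤ y2) :
    x1 * y1 / (x1 + y1) + x2 * y2 / (x2 + y2) ≤
      (x1 + x2) * (y1 + y2) / ((x1 + x2) + (y1 + y2)) := by
  rcases (add_nonneg hx1 hy1).eq_or_lt with h1 | h1
  · have a : x1 = 0 := by linarith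
    have b : y1 = 0 := by linarith
    subst a
    subst b
    simp
  rcases (add_nonneg hx2 hy2).eq_or_lt with h2 | h2
  · have a : x2 = 0 := by linarith
    have b : y2 = 0 := by linarith
    subst a
    subst b
    simp
  rw [div_add_div _ _ h1.ne' h2.ne', div_le_div_iff₀ (mul_pos h1 h2) (by linarith)]
  nlinarith [sq_nonneg (x1 * y2 - x2 * y1)]

theorem con_hom (a x y : ℝ) : a * x * (a * y) / (a * x + a * y) = a * (x * y / (x + y)) := by
  by_cases ha : a = 0
  · simp [ha]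
  · rw [← mul_add]
    by_cases h : x + y = 0
    · simp [h]
    · field_simp

/-- The weights with a given Poincare constant on odd functions form a convex cone. -/
theorem OG_add (μ ν : (V → Bool) → ℝ) (hμ : ∀ σ, 0 < μ σ) (hν : ∀ σ, 0 < ν σ) (c α β : ℝ)
    (hα : 0 ≤ α) (hβ : 0 ≤ β) (hαβ : 0 < α + β) (h1 : OG μ c) (h2 : OG ν c) :
    OG (fun σ => α * μ σ + β * ν σ) c := by
  intro f hf
  have e1 : ip (fun σ => α * μ σ + β * ν σ) f f = α * ip μ f f + β * ip ν f f := by
    unfold ip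
    rw [Finset.mul_sum, Finset.mul_sum, ← Finset.sum_add_distrib]
    refine Finset.sum_congr rfl fun σ _ => ?_
    ring
  have e2 : α * Dir μ f + β * Dir ν f ≤ Dir (fun σ => α * μ σ + β * ν σ) f := by
    unfold Dir
    have e3 : α * ((1 / (2 * (Fintype.card V : ℝ))) *
          ∑ σ, ∑ v, μ σ * μ (fl v σ) / (μ σ + μ (fl v σ)) * (f σ - f (fl v σ)) ^ 2) +
        β * ((1 / (2 * (Fintype.card V : ℝ))) *
          ∑ σ, ∑ v, ν σ * ν (fl v σ) / (ν σ + ν (fl v σ)) * (f σ - f (fl v σ)) ^ 2) =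
        (1 / (2 * (Fintype.card V : ℝ))) *
          ∑ σ, ∑ v, (α * (μ σ * μ (fl v σ) / (μ σ + μ (fl v σ))) +
            β * (ν σ * ν (fl v σ) / (ν σ + ν (fl v σ)))) * (f σ - f (fl v σ)) ^ 2 := by
      have : ∑ σ, ∑ v, (α * (μ σ * μ (fl v σ) / (μ σ + μ (fl v σ))) +
            β * (ν σ * ν (fl v σ) / (ν σ + ν (fl v σ)))) * (f σ - f (fl v σ)) ^ 2 =
          α * (∑ σ, ∑ v, μ σ * μ (fl v σ) / (μ σ + μ (fl v σ)) * (f σ - f (fl v σ)) ^ 2) +
          β * (∑ σ, ∑ v, ν σ * ν (fl v σ) / (ν σ + ν (fl v σ)) * (f σ - f (fl v σ)) ^ 2) := by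
        simp only [Finset.mul_sum]
        rw [← Finset.sum_add_distrib]
        refine Finset.sum_congr rfl fun σ _ => ?_
        rw [← Finset.sum_add_distrib]
        refine Finset.sum_congr rfl fun v _ => ?_
        ring
      rw [this]
      ring
    rw [e3]
    refine mul_le_mul_of_nonneg_left ?_ (by positivity)
    refine Finset.sum_le_sum fun σ _ => Finset.sum_le_sum fun v _ => ?_
    refine mul_le_mul_of_nonneg_right ?_ (sq_nonneg _)
    rw [← con_hom, ← con_hom]
    exact con_h _ _ _ _ (mul_nonneg hα (hμ _).le) (mul_nonneg hα (hμ _).le)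
      (mul_nonneg hβ (hν _).le) (mul_nonneg hβ (hν _).le)
  rw [e1]
  have a1 := mul_le_mul_of_nonneg_left (h1 f hf) hα
  have a2 := mul_le_mul_of_nonneg_left (h2 f hf) hβ
  linarith

theorem OG_smul (ν : (V → Bool) → ℝ) (hν : ∀ σ, 0 < ν σ) (c α : ℝ) (hα : 0 < α) (h : OG ν c) :
    OG (fun σ => α * ν σ) c := by
  have := OG_add ν ν hν hν c α 0 hα.le (le_refl 0) (by linarith) h h
  simpa using this

theorem con_gg (A : Finset V) (σ : V → Bool) : gf A (gf A σ) = σ := by
  funext v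
  unfold gf
  by_cases h : v ∈ A <;> simp [h]

theorem con_gfl (A : Finset V) (v : V) (σ : V → Bool) : gf A (fl v σ) = fl v (gf A σ) := by
  funext u
  unfold gf fl
  by_cases huv : u = v
  · subst huv
    by_cases h : u ∈ A <;> simp [h]
  · by_cases h : u ∈ A <;> simp [h, huv]

theorem con_gneg (A : Finset V) (σ : V → Bool) : gf A (neg σ) = neg (gf A σ) := by
  funext u
  unfold gf neg
  by_cases h : u ∈ A <;> simp [h]

/-- Gauge invariance. -/
theorem OG_gauge (ν : (V → Bool) → ℝ) (c : ℝ) (A : Finset V) (h : OG ν c) :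
    OG (fun σ => ν (gf A σ)) c := by
  intro f hf
  have hinv : Function.Involutive (gf A) := fun σ => con_gg A σ
  have hg : IsOdd (fun σ => f (gf A σ)) := by
    intro σ
    show f (gf A (neg σ)) = -f (gf A σ)
    rw [con_gneg, hf]
  have h1 := h _ hg
  have e1 : ip (fun σ => ν (gf A σ)) f f = ip ν (fun σ => f (gf A σ)) (fun σ => f (gf A σ)) := by
    unfold ip
    rw [← Equiv.sum_comp hinv.toPerm]
    refine Finset.sum_congr rfl fun σ _ => ?_
    simp only [Function.Involutive.coe_toPerm, con_gg]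
  have e2 : Dir (fun σ => ν (gf A σ)) f = Dir ν (fun σ => f (gf A σ)) := by
    unfold Dir
    congr 1
    rw [← Equiv.sum_comp hinv.toPerm]
    refine Finset.sum_congr rfl fun σ _ => ?_
    refine Finset.sum_congr rfl fun v _ => ?_
    simp only [Function.Involutive.coe_toPerm, con_gg, ← con_gfl]
  rw [e1, e2]
  exact h1

end Pool.Agent.H983R2.IM
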