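import Pool.Agent.H983R2.IM.Defs

set_option autoImplicit false

namespace Pool.Agent.H983R2.IM

variable {V : Type} [Fintype V] [DecidableEq V]

theorem w_pos (J : V → V → ℝ) (σ : V → Bool) : 0 < w J σ := Real.exp_pos _

theorem isi_sp_not (b : Bool) : sp (!b) = - sp b := by
  cases b <;> simp [sp]

theorem isi_sp_sq (b : Bool) : sp b * sp b = 1 := by
  cases b <;> simp [sp]

theorem isi_sp_mono {a b : Bool} (h : a ≤ b) : sp a ≤ sp b := by
  cases a <;> cases b
  · exact le_rfl
  · norm_num [sp]
  · exact absurd h (by decide)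
  · exact le_rfl

theorem w_even (J : V → V → ℝ) : IsEven (w J) := by
  intro σ
  unfold w H neg
  congr 2
  refine Finset.sum_congr rfl fun i _ => Finset.sum_congr rfl fun j _ => ?_
  rw [isi_sp_not, isi_sp_not]
  ring

theorem H_setP (J : V → V → ℝ) (a b : V) (hab : a ≠ b) (t : ℝ) (σ : V → Bool) :
    H (setP J a b t) σ = H (setP J a b 0) σ + t * (sp (σ a) * sp (σ b)) := by
  unfold H
  have h1 : ∀ i j, setP J a b t i j * sp (σ i) * sp (σ j) =
      setP J a b 0 i j * sp (σ i) * sp (σ j) +
      ((if i = a then (if j = b then t * sp (σ a) * sp (σ b) else 0) else 0) +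
        (if i = b then (if j = a then t * sp (σ a) * sp (σ b) else 0) else 0)) := by
    intro i j
    unfold setP
    by_cases hia : i = a
    · subst hia
      by_cases hjb : j = b
      · subst hjb
        simp [hab]
      · by_cases hja : j = i
        · subst hja
          simp [hab]
        · simp [hjb, hab]
    · by_cases hib : i = b
      · subst hib
        by_cases hja : j = a
        · subst hja
          simp [hia]
          ring
        · simp [hja, hia]
      · simp [hia, hib]
  simp only [h1, Finset.sum_add_distrib]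
  have h2 : ∀ c d : V, ∑ i, ∑ j, (if i = c then (if j = d then t * sp (σ a) * sp (σ b) else 0) else 0) =
      t * sp (σ a) * sp (σ b) := by
    intro c d
    rw [Finset.sum_eq_single c]
    · simp
    · intro i _ hi
      simp [hi]
    · intro h
      exact absurd (Finset.mem_univ c) h
  rw [h2, h2]
  ring

/-- the local field -/
noncomputable def isi_S (J : V → V → ℝ) (v : V) (σ : V → Bool) : ℝ :=
  ∑ u ∈ Finset.univ.erase v, J v u * sp (σ u)

theorem isi_H (J : V → V → ℝ) (hs : ∀ x y, J x y = J y x) (σ : V → Bool) (v : V) (b : Bool) :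
    H J (Function.update σ v b) =
      (J v v + ∑ i ∈ Finset.univ.erase v, ∑ j ∈ Finset.univ.erase v, J i j * sp (σ i) * sp (σ j)) / 2 +
      sp b * isi_S J v σ := by
  unfold H isi_S
  have hrow : ∀ i, ∑ j, J i j * sp (Function.update σ v b i) * sp (Function.update σ v b j) =
      J i v * sp (Function.update σ v b i) * sp b +
      ∑ j ∈ Finset.univ.erase v, J i j * sp (Function.update σ v b i) * sp (σ j) := by
    intro i
    rw [← Finset.add_sum_erase _ _ (Finset.mem_univ v), Function.update_self]
    congr 1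
    refine Finset.sum_congr rfl fun j hj => ?_
    rw [Function.update_of_ne (Finset.ne_of_mem_erase hj)]
  simp only [hrow]
  rw [← Finset.add_sum_erase _ _ (Finset.mem_univ v), Function.update_self]
  have h1 : ∑ i ∈ Finset.univ.erase v, (J i v * sp (Function.update σ v b i) * sp b +
      ∑ j ∈ Finset.univ.erase v, J i j * sp (Function.update σ v b i) * sp (σ j)) =
      sp b * (∑ u ∈ Finset.univ.erase v, J v u * sp (σ u)) +
      ∑ i ∈ Finset.univ.erase v, ∑ j ∈ Finset.univ.erase v, J i j * sp (σ i) * sp (σ j) := by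
    rw [Finset.mul_sum, ← Finset.sum_add_distrib]
    refine Finset.sum_congr rfl fun i hi => ?_
    rw [Function.update_of_ne (Finset.ne_of_mem_erase hi), hs i v]
    ring
  have h2 : ∑ j ∈ Finset.univ.erase v, J v j * sp b * sp (σ j) =
      sp b * ∑ u ∈ Finset.univ.erase v, J v u * sp (σ u) := by
    rw [Finset.mul_sum]
    refine Finset.sum_congr rfl fun i _ => ?_
    ring
  rw [h1, h2]
  have h3 : J v v * sp b * sp b = J v v := by rw [mul_assoc, isi_sp_sq, mul_one]
  rw [h3]
  ring

theorem isi_E (J : V → V → ℝ) (hs : ∀ x y, J x y = J y x) (f : (V → Bool) → ℝ) (σ : V → Bool) (v : V) :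
    E (w J) v f σ = f (Function.update σ v false) + 1 / (1 + Real.exp (-(2 * isi_S J v σ))) *
      (f (Function.update σ v true) - f (Function.update σ v false)) := by
  unfold E w
  rw [isi_H J hs, isi_H J hs]
  generalize (J v v + ∑ i ∈ Finset.univ.erase v, ∑ j ∈ Finset.univ.erase v,
    J i j * sp (σ i) * sp (σ j)) / 2 = K
  generalize isi_S J v σ = S
  have h1 : sp true = 1 := by simp [sp]
  have h2 : sp false = -1 := by simp [sp]
  rw [h1, h2]
  have h3 : Real.exp (K + -1 * S) = Real.exp (K + 1 * S) * Real.exp (-(2 * S)) := by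
    rw [← Real.exp_add]
    congr 1
    ring
  rw [h3]
  have h4 := Real.exp_pos (K + 1 * S)
  have h5 := Real.exp_pos (-(2 * S))
  field_simp
  ring

/-- The heat bath of a ferromagnet preserves increasing functions. -/
theorem P_mono (J : V → V → ℝ) (hs : ∀ x y, J x y = J y x) (hJ : ∀ x y, x ≠ y → 0 ≤ J x y)
    (f : (V → Bool) → ℝ) (hf : Monotone f) : Monotone (P (w J) f) := by
  intro σ τ hστ
  unfold P
  refine mul_le_mul_of_nonneg_left (Finset.sum_le_sum fun v _ => ?_) (by positivity)
  rw [isi_E J hs, isi_E J hs]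
  have hS : isi_S J v σ ≤ isi_S J v τ := by
    unfold isi_S
    refine Finset.sum_le_sum fun u hu => ?_
    exact mul_le_mul_of_nonneg_left (isi_sp_mono (hστ u)) (hJ v u (Finset.ne_of_mem_erase hu).symm)
  have hp : 1 / (1 + Real.exp (-(2 * isi_S J v σ))) ≤ 1 / (1 + Real.exp (-(2 * isi_S J v τ))) := by
    have h1 := Real.exp_pos (-(2 * isi_S J v τ))
    have h2 : Real.exp (-(2 * isi_S J v τ)) ≤ Real.exp (-(2 * isi_S J v σ)) :=
      Real.exp_le_exp.2 (by linarith)
    exact one_div_le_one_div_of_le (by linarith) (by linarith)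
  have hp0 : 0 ≤ 1 / (1 + Real.exp (-(2 * isi_S J v σ))) := by positivity
  have hp1 : 1 / (1 + Real.exp (-(2 * isi_S J v σ))) ≤ 1 := by
    have h1 := Real.exp_pos (-(2 * isi_S J v σ))
    rw [div_le_one (by linarith)]
    linarith
  have h1 : f (Function.update σ v false) ≤ f (Function.update τ v false) :=
    hf (update_le_update_iff.2 ⟨le_rfl, fun j _ => hστ j⟩)
  have h2 : f (Function.update σ v true) ≤ f (Function.update τ v true) :=
    hf (update_le_update_iff.2 ⟨le_rfl, fun j _ => hστ j⟩)
  have h3 : f (Function.update τ v false) ≤ f (Function.update τ v true) :=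
    hf (update_le_update_iff.2 ⟨Bool.false_le _, fun j _ => le_rfl⟩)
  generalize 1 / (1 + Real.exp (-(2 * isi_S J v σ))) = p at *
  generalize 1 / (1 + Real.exp (-(2 * isi_S J v τ))) = q at *
  nlinarith [mul_nonneg hp0 (sub_nonneg.2 h2), mul_nonneg (sub_nonneg.2 hp1) (sub_nonneg.2 h1),
    mul_nonneg (sub_nonneg.2 hp) (sub_nonneg.2 h3)]

end Pool.Agent.H983R2.IM
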