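import Pool.Agent.H983R2.IM.Defs
import Pool.Agent.H983R2.IM.Isi
import Pool.Agent.H983R2.IM.ConeG

set_option autoImplicit false

namespace Pool.Agent.H983R2.IM

variable {V : Type} [Fintype V] [DecidableEq V]









theorem qco_sinh (t0 t1 t2 : ℝ) : Real.sinh (t2 - t0) * Real.exp t1 =
    Real.sinh (t2 - t1) * Real.exp t0 + Real.sinh (t1 - t0) * Real.exp t2 := by
  rw [Real.sinh_eq, Real.sinh_eq, Real.sinh_eq]
  have e : ∀ x y : ℝ, (Real.exp x - Real.exp (-x)) / 2 * Real.exp y =
      (Real.exp (x + y) - Real.exp (-x + y)) / 2 := by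
    intro x y
    rw [Real.exp_add, Real.exp_add]
    ring
  rw [e, e, e]
  have h1 : t2 - t0 + t1 = t1 - t0 + t2 := by ring
  have h2 : -(t2 - t0) + t1 = -(t2 - t1) + t0 := by ring
  have h3 : t2 - t1 + t0 = -(t1 - t0) + t2 := by ring
  rw [h1, h2, h3]
  ring

theorem qco_exp (t0 t1 t2 x : ℝ) (hx : x = 1 ∨ x = -1) : Real.sinh (t2 - t0) * Real.exp (t1 * x) =
    Real.sinh (t2 - t1) * Real.exp (t0 * x) + Real.sinh (t1 - t0) * Real.exp (t2 * x) := by
  rcases hx with rfl | rfl
  · simp only [mul_one]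
    exact qco_sinh t0 t1 t2
  · have h := qco_sinh (-t0) (-t1) (-t2)
    have e : ∀ x y : ℝ, -x - -y = -(x - y) := fun x y => by ring
    rw [e, e, e, Real.sinh_neg, Real.sinh_neg, Real.sinh_neg] at h
    simp only [mul_neg, mul_one]
    linarith

theorem qco_sp (b : Bool) : sp b = 1 ∨ sp b = -1 := by
  cases b
  · right; rfl
  · left; rfl

theorem qco_w (J : V → V → ℝ) (a b : V) (hab : a ≠ b) (t : ℝ) (σ : V → Bool) :
    w (setP J a b t) σ = w (setP J a b 0) σ * Real.exp (t * (sp (σ a) * sp (σ b))) := by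
  unfold w
  rw [H_setP J a b hab t σ, Real.exp_add]

/-- Quasi-concavity of the odd gap in one coupling. -/
theorem OG_between (J : V → V → ℝ) (a b : V) (hab : a ≠ b) (t0 t1 t2 c : ℝ) (h01 : t0 ≤ t1)
    (h12 : t1 ≤ t2) (h0 : OG (w (setP J a b t0)) c) (h2 : OG (w (setP J a b t2)) c) :
    OG (w (setP J a b t1)) c := by
  rcases eq_or_lt_of_le (h01.trans h12) with h | h
  · have : t1 = t0 := le_antisymm (h12.trans h.symm.le) h01
    rw [this]; exact h0
  · have hS : 0 < Real.sinh (t2 - t0) := Real.sinh_pos_iff.2 (by linarith)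
    have hA : 0 ≤ Real.sinh (t2 - t1) := Real.sinh_nonneg_iff.2 (by linarith)
    have hB : 0 ≤ Real.sinh (t1 - t0) := Real.sinh_nonneg_iff.2 (by linarith)
    have hAB : 0 < Real.sinh (t2 - t1) + Real.sinh (t1 - t0) := by
      rcases eq_or_lt_of_le h12 with h' | h'
      · have : 0 < Real.sinh (t1 - t0) := Real.sinh_pos_iff.2 (by linarith)
        linarith
      · have : 0 < Real.sinh (t2 - t1) := Real.sinh_pos_iff.2 (by linarith)
        linarith
    have h3 := OG_add (w (setP J a b t0)) (w (setP J a b t2)) (fun σ => w_pos _ σ)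
      (fun σ => w_pos _ σ) c (Real.sinh (t2 - t1) / Real.sinh (t2 - t0))
      (Real.sinh (t1 - t0) / Real.sinh (t2 - t0)) (by positivity) (by positivity)
      (by rw [← add_div]; positivity) h0 h2
    have h4 : (fun σ => Real.sinh (t2 - t1) / Real.sinh (t2 - t0) * w (setP J a b t0) σ +
        Real.sinh (t1 - t0) / Real.sinh (t2 - t0) * w (setP J a b t2) σ) = w (setP J a b t1) := by
      funext σ
      have hx : sp (σ a) * sp (σ b) = 1 ∨ sp (σ a) * sp (σ b) = -1 := by
        rcases qco_sp (σ a) with h | h <;> rcases qco_sp (σ b) with h' | h' <;> rw [h, h'] <;> norm_num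
      have h5 := qco_exp t0 t1 t2 _ hx
      rw [qco_w J a b hab t0, qco_w J a b hab t1, qco_w J a b hab t2, div_mul_eq_mul_div,
        div_mul_eq_mul_div, ← add_div, div_eq_iff hS.ne']
      have h6 : Real.sinh (t2 - t1) * (w (setP J a b 0) σ * Real.exp (t0 * (sp (σ a) * sp (σ b)))) +
          Real.sinh (t1 - t0) * (w (setP J a b 0) σ * Real.exp (t2 * (sp (σ a) * sp (σ b)))) =
          w (setP J a b 0) σ * (Real.sinh (t2 - t1) * Real.exp (t0 * (sp (σ a) * sp (σ b))) +
            Real.sinh (t1 - t0) * Real.exp (t2 * (sp (σ a) * sp (σ b)))) := by ring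
      rw [h6, ← h5]
      ring
    rw [h4] at h3
    exact h3

theorem qco_gf (A : Finset V) (σ : V → Bool) (v : V) :
    sp (gf A σ v) = if v ∈ A then -sp (σ v) else sp (σ v) := by
  unfold gf
  split_ifs with h
  · cases σ v <;> simp [sp]
  · rfl

/-- The odd gap is even in the coupling of a bridge. -/
theorem OG_bridge_neg (J : V → V → ℝ) (hs : ∀ x y, J x y = J y x) (a b : V) (hb : Br J a b) (t c : ℝ)
    (h : OG (w (setP J a b t)) c) : OG (w (setP J a b (-t))) c := by
  obtain ⟨A, ha, hbA, hA⟩ := hb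
  have h1 := OG_gauge _ c A h
  have h2 : (fun σ => w (setP J a b t) (gf A σ)) = w (setP J a b (-t)) := by
    funext σ
    unfold w H
    congr 2
    apply Finset.sum_congr rfl
    intro i _
    apply Finset.sum_congr rfl
    intro j _
    rw [qco_gf, qco_gf]
    unfold setP
    by_cases hi : i ∈ A <;> by_cases hj : j ∈ A
    · have hc : ¬ ((i = a ∧ j = b) ∨ (i = b ∧ j = a)) := by
        rintro (⟨-, rfl⟩ | ⟨rfl, -⟩)
        · exact hbA hj
        · exact hbA hi
      rw [if_pos hi, if_pos hj, if_neg hc, if_neg hc]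
      ring
    · rw [if_pos hi, if_neg hj]
      by_cases hab : i = a ∧ j = b
      · rw [if_pos (Or.inl hab), if_pos (Or.inl hab)]
        ring
      · have hc : ¬ ((i = a ∧ j = b) ∨ (i = b ∧ j = a)) := by
          rintro (h' | ⟨rfl, -⟩)
          · exact hab h'
          · exact hbA hi
        have h0 : J i j = 0 := by
          by_contra hne
          exact hab (hA i hi j hj hne)
        rw [if_neg hc, if_neg hc, h0]
        ring
    · rw [if_neg hi, if_pos hj]
      by_cases hab : i = b ∧ j = a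
      · rw [if_pos (Or.inr hab), if_pos (Or.inr hab)]
        ring
      · have hc : ¬ ((i = a ∧ j = b) ∨ (i = b ∧ j = a)) := by
          rintro (⟨rfl, -⟩ | h')
          · exact hi ha
          · exact hab h'
        have h0 : J i j = 0 := by
          rw [hs]
          by_contra hne
          exact hab (hA j hj i hi hne).symm
        rw [if_neg hc, if_neg hc, h0]
        ring
    · have hc : ¬ ((i = a ∧ j = b) ∨ (i = b ∧ j = a)) := by
        rintro (⟨rfl, -⟩ | ⟨-, rfl⟩)
        · exact hi ha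
        · exact hj ha
      rw [if_neg hi, if_neg hj, if_neg hc, if_neg hc]
  rw [h2] at h1
  exact h1

/-- Removing or weakening a bridge. -/
theorem OG_bridge (J : V → V → ℝ) (hs : ∀ x y, J x y = J y x) (a b : V) (hb : Br J a b) (s t c : ℝ)
    (hst : |s| ≤ t) (h : OG (w (setP J a b t)) c) : OG (w (setP J a b s)) c := by
  have hab : a ≠ b := by
    obtain ⟨A, ha, hbA, -⟩ := hb
    rintro rfl
    exact hbA ha
  obtain ⟨h1, h2⟩ := abs_le.1 hst
  exact OG_between J a b hab (-t) s t c h1 h2 (OG_bridge_neg J hs a b hb t c h) h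

end Pool.Agent.H983R2.IM
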