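import Pool.Agent.H983R2.IM.ConeG
import Pool.Agent.H983R2.IM.Qco

/-!
# Weakening any set of bridges
-/

set_option autoImplicit false

namespace Pool.Agent.H983R2.IM

variable {V : Type} [Fintype V] [DecidableEq V]

theorem cha_sp_sq (b : Bool) : sp b * sp b = 1 := by
  cases b <;> simp [sp]

/-- If two couplings agree off the diagonal, the Ising weights are proportional. -/
theorem cha_w (J J' : V → V → ℝ) (h : ∀ x y, x ≠ y → J x y = J' x y) (σ : V → Bool) :
    w J σ = Real.exp ((∑ i, (J i i - J' i i)) / 2) * w J' σ := by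
  unfold w
  rw [← Real.exp_add]
  congr 1
  unfold H
  have h1 : ∑ i, ∑ j, J i j * sp (σ i) * sp (σ j) =
      ∑ i, (J i i - J' i i) + ∑ i, ∑ j, J' i j * sp (σ i) * sp (σ j) := by
    rw [← Finset.sum_add_distrib]
    apply Finset.sum_congr rfl
    intro i _
    rw [← Finset.add_sum_erase _ _ (Finset.mem_univ i),
      ← Finset.add_sum_erase _ (fun j => J' i j * sp (σ i) * sp (σ j)) (Finset.mem_univ i)]
    have h2 : ∑ j ∈ Finset.univ.erase i, J i j * sp (σ i) * sp (σ j) =
        ∑ j ∈ Finset.univ.erase i, J' i j * sp (σ i) * sp (σ j) := by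
      apply Finset.sum_congr rfl
      intro j hj
      rw [h i j (Finset.ne_of_mem_erase hj).symm]
    rw [h2, mul_assoc, cha_sp_sq, mul_assoc (J' i i), cha_sp_sq]
    ring
  rw [h1]
  ring

theorem cha_setP_symm (J : V → V → ℝ) (hs : ∀ x y, J x y = J y x) (a b : V) (t : ℝ) (x y : V) :
    setP J a b t x y = setP J a b t y x := by
  unfold setP
  by_cases h : (x = a ∧ y = b) ∨ (x = b ∧ y = a)
  · have h' : (y = a ∧ x = b) ∨ (y = b ∧ x = a) := by
      rcases h with h | h
      · exact Or.inr ⟨h.2, h.1⟩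
      · exact Or.inl ⟨h.2, h.1⟩
    rw [if_pos h, if_pos h']
  · have h' : ¬ ((y = a ∧ x = b) ∨ (y = b ∧ x = a)) := by
      intro h2
      apply h
      rcases h2 with h2 | h2
      · exact Or.inr ⟨h2.2, h2.1⟩
      · exact Or.inl ⟨h2.2, h2.1⟩
    rw [if_neg h, if_neg h', hs]

theorem cha_setP_self (J : V → V → ℝ) (hs : ∀ x y, J x y = J y x) (a b : V) :
    setP J a b (J a b) = J := by
  funext x y
  unfold setP
  split_ifs with h
  · rcases h with h | h
    · rw [h.1, h.2]
    · rw [h.1, h.2, hs]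
  · rfl

theorem cha_aux (hsm : ∀ (ν : (V → Bool) → ℝ), (∀ σ, 0 < ν σ) → ∀ (c α : ℝ), 0 < α → OG ν c →
      OG (fun σ => α * ν σ) c)
    (hbr : ∀ (J : V → V → ℝ), (∀ x y, J x y = J y x) → ∀ (a b : V), Br J a b → ∀ (s t c : ℝ),
      |s| ≤ t → OG (w (setP J a b t)) c → OG (w (setP J a b s)) c)
    (J : V → V → ℝ) (hs : ∀ x y, J x y = J y x) (h0 : ∀ x y, x ≠ y → 0 ≤ J x y) (c : ℝ) :
    ∀ (n : ℕ) (J' : V → V → ℝ), (∀ x y, J' x y = J' y x) → (∀ x y, x ≠ y → J x y ≤ J' x y) →
      (∀ x y, x ≠ y → J x y ≠ J' x y → Br J' x y) →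
      (Finset.univ.filter (fun p : V × V => p.1 ≠ p.2 ∧ J p.1 p.2 ≠ J' p.1 p.2)).card ≤ n →
      OG (w J') c → OG (w J) c := by
  classical
  intro n
  induction n with
  | zero =>
    intro J' hs' h1 hb hn h
    have hD := Finset.card_eq_zero.mp (Nat.le_zero.mp hn)
    have hagree : ∀ x y, x ≠ y → J x y = J' x y := by
      intro x y hxy
      by_contra hne
      have : (x, y) ∈ Finset.univ.filter
          (fun p : V × V => p.1 ≠ p.2 ∧ J p.1 p.2 ≠ J' p.1 p.2) := by
        rw [Finset.mem_filter]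
        exact ⟨Finset.mem_univ _, hxy, hne⟩
      rw [hD] at this
      exact absurd this (Finset.notMem_empty _)
    have hw : w J = fun σ => Real.exp ((∑ i, (J i i - J' i i)) / 2) * w J' σ :=
      funext fun σ => cha_w J J' hagree σ
    rw [hw]
    exact hsm (w J') (fun σ => Real.exp_pos _) c _ (Real.exp_pos _) h
  | succ n ih =>
    intro J' hs' h1 hb hn h
    by_cases hcase : ∃ a b, a ≠ b ∧ J a b ≠ J' a b
    · obtain ⟨a, b, hab, hne⟩ := hcase
      have hJ'' : ∀ x y, ¬ ((x = a ∧ y = b) ∨ (x = b ∧ y = a)) →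
          setP J' a b (J a b) x y = J' x y := by
        intro x y hxy
        unfold setP
        rw [if_neg hxy]
      have hJ2 : ∀ x y, ((x = a ∧ y = b) ∨ (x = b ∧ y = a)) →
          setP J' a b (J a b) x y = J x y := by
        intro x y hxy
        unfold setP
        rw [if_pos hxy]
        rcases hxy with h2 | h2
        · rw [h2.1, h2.2]
        · rw [h2.1, h2.2, hs]
      apply ih (setP J' a b (J a b)) (cha_setP_symm J' hs' a b _)
      · intro x y hxy
        by_cases h3 : (x = a ∧ y = b) ∨ (x = b ∧ y = a)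
        · rw [hJ2 x y h3]
        · rw [hJ'' x y h3]
          exact h1 x y hxy
      · intro x y hxy h4
        have h3 : ¬ ((x = a ∧ y = b) ∨ (x = b ∧ y = a)) := fun h5 => h4 (hJ2 x y h5).symm
        rw [hJ'' x y h3] at h4
        obtain ⟨A, hxA, hyA, hA⟩ := hb x y hxy h4
        refine ⟨A, hxA, hyA, ?_⟩
        intro u hu v hv huv
        apply hA u hu v hv
        have huv' : u ≠ v := fun h5 => hv (h5 ▸ hu)
        by_cases h5 : (u = a ∧ v = b) ∨ (u = b ∧ v = a)
        · rw [hJ2 u v h5] at huv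
          have h6 := h0 u v huv'
          have h7 := h1 u v huv'
          have h8 : 0 < J u v := lt_of_le_of_ne h6 (Ne.symm huv)
          exact ne_of_gt (lt_of_lt_of_le h8 h7)
        · rw [hJ'' u v h5] at huv
          exact huv
      · have hlt : (Finset.univ.filter (fun p : V × V =>
            p.1 ≠ p.2 ∧ J p.1 p.2 ≠ setP J' a b (J a b) p.1 p.2)).card <
            (Finset.univ.filter (fun p : V × V =>
              p.1 ≠ p.2 ∧ J p.1 p.2 ≠ J' p.1 p.2)).card := by
          apply Finset.card_lt_card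
          rw [Finset.ssubset_iff_of_subset]
          · refine ⟨(a, b), ?_, ?_⟩
            · rw [Finset.mem_filter]
              exact ⟨Finset.mem_univ _, hab, hne⟩
            · rw [Finset.mem_filter]
              rintro ⟨_, _, h6⟩
              exact h6 (hJ2 a b (Or.inl ⟨rfl, rfl⟩)).symm
          · intro p hp
            rw [Finset.mem_filter] at hp ⊢
            refine ⟨Finset.mem_univ _, hp.2.1, ?_⟩
            have h3 : ¬ ((p.1 = a ∧ p.2 = b) ∨ (p.1 = b ∧ p.2 = a)) :=
              fun h5 => hp.2.2 (hJ2 p.1 p.2 h5).symm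
            have h4 := hp.2.2
            rw [hJ'' p.1 p.2 h3] at h4
            exact h4
        omega
      · apply hbr J' hs' a b (hb a b hab hne) (J a b) (J' a b) c
        · rw [abs_of_nonneg (h0 a b hab)]
          exact h1 a b hab
        · rw [cha_setP_self J' hs']
          exact h
    · apply ih J' hs' h1 hb _ h
      have hD : Finset.univ.filter (fun p : V × V => p.1 ≠ p.2 ∧ J p.1 p.2 ≠ J' p.1 p.2) = ∅ := by
        apply Finset.filter_eq_empty_iff.mpr
        intro p _ hp
        exact hcase ⟨p.1, p.2, hp.1, hp.2⟩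
      rw [hD]
      simp

/-- Weakening any set of bridges. -/
theorem OG_bridges (J J' : V → V → ℝ) (hs : ∀ x y, J x y = J y x) (hs' : ∀ x y, J' x y = J' y x)
    (h0 : ∀ x y, x ≠ y → 0 ≤ J x y) (h1 : ∀ x y, x ≠ y → J x y ≤ J' x y)
    (hb : ∀ x y, x ≠ y → J x y ≠ J' x y → Br J' x y) (c : ℝ) (h : OG (w J') c) :
    OG (w J) c :=
  cha_aux (fun ν hν c α hα h => OG_smul ν hν c α hα h)
    (fun J hs a b hb s t c hst h => OG_bridge J hs a b hb s t c hst h) J hs h0 c _ J' hs' h1 hb
    le_rfl h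

end Pool.Agent.H983R2.IM
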