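import Pool.Agent.H983R2.IM.Defs

/-!
FKG: the FKG inequality for the Ising weight, domination by the magnetisation (helper61).
-/

set_option autoImplicit false

namespace Pool.Agent.H983R2.IM

variable {V : Type} [Fintype V] [DecidableEq V]

omit [Fintype V] [DecidableEq V] in
theorem fkg_bool (a b c d : Bool) :
    sp a * sp b + sp c * sp d ≤ sp (a ⊓ c) * sp (b ⊓ d) + sp (a ⊔ c) * sp (b ⊔ d) := by
  cases a <;> cases b <;> cases c <;> cases d <;> norm_num [sp]

theorem fkg_sp_sq (a : Bool) : sp a * sp a = 1 := by cases a <;> norm_num [sp]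

theorem fkg_sp_mono {a b : Bool} (h : a ≤ b) : sp a ≤ sp b := by
  cases a <;> cases b
  · exact le_rfl
  · norm_num [sp]
  · exact absurd h (by decide)
  · exact le_rfl

theorem fkg_H (J : V → V → ℝ) (hJ : ∀ x y, x ≠ y → 0 ≤ J x y) (σ τ : V → Bool) :
    H J σ + H J τ ≤ H J (σ ⊓ τ) + H J (σ ⊔ τ) := by
  unfold H
  rw [← add_div, ← add_div]
  apply div_le_div_of_nonneg_right _ (by norm_num)
  rw [← Finset.sum_add_distrib, ← Finset.sum_add_distrib]
  apply Finset.sum_le_sum
  intro i _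
  rw [← Finset.sum_add_distrib, ← Finset.sum_add_distrib]
  apply Finset.sum_le_sum
  intro j _
  by_cases hij : i = j
  · subst hij
    apply le_of_eq
    have e : ∀ ρ : V → Bool, J i i * sp (ρ i) * sp (ρ i) = J i i := fun ρ => by
      rw [mul_assoc, fkg_sp_sq, mul_one]
    rw [e σ, e τ, e (σ ⊓ τ), e (σ ⊔ τ)]
  · have h1 := mul_le_mul_of_nonneg_left (fkg_bool (σ i) (σ j) (τ i) (τ j)) (hJ i j hij)
    simp only [Pi.inf_apply, Pi.sup_apply]
    nlinarith [h1]

/-- The FKG inequality for the Ising weight. -/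
theorem fkg_w (J : V → V → ℝ) (hs : ∀ x y, J x y = J y x) (hJ : ∀ x y, x ≠ y → 0 ≤ J x y)
    (f g : (V → Bool) → ℝ) (hf : Monotone f) (hg : Monotone g) :
    ip (w J) f (fun _ => 1) * ip (w J) g (fun _ => 1) ≤
      ip (w J) (fun _ => 1) (fun _ => 1) * ip (w J) f g := by
  have _ := hs
  have hw : ∀ a b, w J a * w J b ≤ w J (a ⊓ b) * w J (a ⊔ b) := by
    intro a b
    unfold w
    rw [← Real.exp_add, ← Real.exp_add]
    exact Real.exp_le_exp.2 (fkg_H J hJ a b)
  have hbd : ∀ (h : (V → Bool) → ℝ) (σ : V → Bool), 0 ≤ h σ + ∑ τ, |h τ| := by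
    intro h σ
    have h1 : |h σ| ≤ ∑ τ, |h τ| :=
      Finset.single_le_sum (f := fun τ => |h τ|) (fun τ _ => abs_nonneg _) (Finset.mem_univ σ)
    linarith [neg_abs_le (h σ)]
  set C : ℝ := ∑ τ, |f τ|
  set D : ℝ := ∑ τ, |g τ|
  have key := fkg (fun σ => f σ + C) (fun σ => g σ + D) (w J)
    (fun σ => (Real.exp_pos _).le) (fun σ => hbd f σ) (fun σ => hbd g σ)
    (fun a b hab => add_le_add_left (hf hab) C) (fun a b hab => add_le_add_left (hg hab) D) hw
  have e1 : ∑ a, w J a * (f a + C) = ∑ a, w J a * f a + C * ∑ a, w J a := by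
    rw [Finset.mul_sum, ← Finset.sum_add_distrib]
    exact Finset.sum_congr rfl fun a _ => by ring
  have e2 : ∑ a, w J a * (g a + D) = ∑ a, w J a * g a + D * ∑ a, w J a := by
    rw [Finset.mul_sum, ← Finset.sum_add_distrib]
    exact Finset.sum_congr rfl fun a _ => by ring
  have e3 : ∑ a, w J a * ((f a + C) * (g a + D)) = ∑ a, w J a * f a * g a +
      D * (∑ a, w J a * f a) + C * (∑ a, w J a * g a) + C * D * ∑ a, w J a := by
    rw [Finset.mul_sum, Finset.mul_sum, Finset.mul_sum, ← Finset.sum_add_distrib,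
      ← Finset.sum_add_distrib, ← Finset.sum_add_distrib]
    exact Finset.sum_congr rfl fun a _ => by ring
  rw [e1, e2, e3] at key
  unfold ip
  simp only [mul_one]
  nlinarith [key]

theorem mag_mono : Monotone (mag : (V → Bool) → ℝ) := by
  intro σ τ h
  exact Finset.sum_le_sum fun v _ => fkg_sp_mono (h v)

theorem mag_odd : IsOdd (mag : (V → Bool) → ℝ) := by
  intro σ
  unfold mag neg
  rw [← Finset.sum_neg_distrib]
  refine Finset.sum_congr rfl fun v _ => ?_
  cases σ v <;> norm_num [sp]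

theorem fkg_mag_gap {σ τ : V → Bool} (h : σ ≤ τ) (hne : σ ≠ τ) : 2 ≤ mag τ - mag σ := by
  obtain ⟨v, hv⟩ := Function.ne_iff.1 hne
  have h1 : ∀ u ∈ Finset.univ, 0 ≤ sp (τ u) - sp (σ u) := fun u _ => by
    linarith [fkg_sp_mono (h u)]
  have h2 := Finset.single_le_sum h1 (Finset.mem_univ v)
  have h3 : sp (τ v) - sp (σ v) = 2 := by
    have h4 := h v
    cases hσ : σ v <;> cases hτ : τ v
    · rw [hσ, hτ] at hv; exact absurd rfl hv
    · norm_num [sp]
    · rw [hσ, hτ] at h4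
      have h6 : ¬ (true ≤ false) := by decide
      exact absurd h4 h6
    · rw [hσ, hτ] at hv; exact absurd rfl hv
  have h5 : ∑ u, (sp (τ u) - sp (σ u)) = mag τ - mag σ := by
    unfold mag
    rw [Finset.sum_sub_distrib]
  rw [h3, h5] at h2
  exact h2

theorem fkg_mag_dom (g : (V → Bool) → ℝ) (M : ℝ) (hM : ∀ σ, |g σ| ≤ M) :
    Monotone (fun σ => M * mag σ + g σ) := by
  intro σ τ h
  by_cases hne : σ = τ
  · rw [hne]
  · have h1 := fkg_mag_gap h hne
    have h2 := hM σ
    have h3 := hM τ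
    have hM0 : 0 ≤ M := (abs_nonneg _).trans h2
    have h4 := mul_le_mul_of_nonneg_left h1 hM0
    show M * mag σ + g σ ≤ M * mag τ + g τ
    linarith [le_abs_self (g σ), neg_abs_le (g τ)]

/-- Every function is dominated by a multiple of the magnetisation. -/
theorem mag_dom (g : (V → Bool) → ℝ) :
    ∃ M : ℝ, 0 ≤ M ∧ Monotone (fun σ => M * mag σ + g σ) ∧ Monotone (fun σ => M * mag σ - g σ) := by
  have hb : ∀ σ, |g σ| ≤ ∑ τ, |g τ| := fun σ =>
    Finset.single_le_sum (f := fun τ => |g τ|) (fun τ _ => abs_nonneg _) (Finset.mem_univ σ)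
  refine ⟨∑ σ, |g σ|, Finset.sum_nonneg fun _ _ => abs_nonneg _, fkg_mag_dom g _ hb, ?_⟩
  have h := fkg_mag_dom (fun σ => -g σ) (∑ σ, |g σ|) (fun σ => by rw [abs_neg]; exact hb σ)
  simpa [sub_eq_add_neg] using h

end Pool.Agent.H983R2.IM
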