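import Pool.Agent.H983R2.IM.Defs

set_option autoImplicit false

namespace Pool.Agent.H983R2.IM

variable {V : Type} [Fintype V] [DecidableEq V]

omit [Fintype V] in
theorem ops_fl_fl (v : V) (σ : V → Bool) : fl v (fl v σ) = σ := by
  unfold fl
  rw [Function.update_idem, Function.update_self, Bool.not_not, Function.update_eq_self]

omit [Fintype V] in
theorem ops_E_eq (ν : (V → Bool) → ℝ) (v : V) (f : (V → Bool) → ℝ) (σ : V → Bool) :
    E ν v f σ = (ν σ * f σ + ν (fl v σ) * f (fl v σ)) / (ν σ + ν (fl v σ)) := by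
  unfold E fl
  by_cases h : σ v = true
  · have h1 : Function.update σ v true = σ := by
      rw [← h, Function.update_eq_self]
    rw [h1, h]
    rfl
  · have h0 : σ v = false := by
      cases hv : σ v with
      | false => rfl
      | true => exact absurd hv h
    have h1 : Function.update σ v false = σ := by
      rw [← h0, Function.update_eq_self]
    rw [h1, h0]
    show _ = (ν σ * f σ + ν (Function.update σ v true) * f (Function.update σ v true)) /
      (ν σ + ν (Function.update σ v true))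
    rw [add_comm, add_comm (ν (Function.update σ v true)) (ν σ)]

theorem ops_sum_fl (v : V) (F : (V → Bool) → ℝ) : ∑ σ, F (fl v σ) = ∑ σ, F σ := by
  have h : Function.Involutive (fl v : (V → Bool) → (V → Bool)) := ops_fl_fl v
  exact Equiv.sum_comp h.toPerm F

theorem ops_sum_half (v : V) (F : (V → Bool) → ℝ) :
    ∑ σ, F σ = (1 / 2) * ∑ σ, (F σ + F (fl v σ)) := by
  rw [Finset.sum_add_distrib, ops_sum_fl]
  ring

omit [Fintype V] in
theorem ops_E_fl (ν : (V → Bool) → ℝ) (v : V) (f : (V → Bool) → ℝ) (σ : V → Bool) :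
    E ν v f (fl v σ) = E ν v f σ := by
  rw [ops_E_eq, ops_E_eq, ops_fl_fl, add_comm, add_comm (ν (fl v σ)) (ν σ)]

omit [Fintype V] in
theorem ops_E_idem (ν : (V → Bool) → ℝ) (hν : ∀ σ, 0 < ν σ) (v : V) (f : (V → Bool) → ℝ) :
    E ν v (E ν v f) = E ν v f := by
  funext σ
  rw [ops_E_eq, ops_E_fl, ← add_mul]
  have h1 := hν σ
  have h2 := hν (fl v σ)
  field_simp

theorem ip_E_left (ν : (V → Bool) → ℝ) (hν : ∀ σ, 0 < ν σ) (v : V) (f g : (V → Bool) → ℝ) :
    ip ν (E ν v f) g = ip ν f (E ν v g) := by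
  unfold ip
  rw [← sub_eq_zero, ← Finset.sum_sub_distrib, ops_sum_half v]
  have h : ∀ σ : V → Bool, (ν σ * E ν v f σ * g σ - ν σ * f σ * E ν v g σ +
      (ν (fl v σ) * E ν v f (fl v σ) * g (fl v σ) - ν (fl v σ) * f (fl v σ) * E ν v g (fl v σ)))
      = 0 := by
    intro σ
    rw [ops_E_fl, ops_E_fl, ops_E_eq, ops_E_eq]
    have h1 := hν σ
    have h2 := hν (fl v σ)
    field_simp
    ring
  rw [Finset.sum_eq_zero (fun σ _ => h σ), mul_zero]

theorem ip_E_E (ν : (V → Bool) → ℝ) (hν : ∀ σ, 0 < ν σ) (v : V) (f g : (V → Bool) → ℝ) :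
    ip ν (E ν v f) (E ν v g) = ip ν f (E ν v g) := by
  rw [ip_E_left ν hν, ops_E_idem ν hν]

theorem ops_ip_P_left (ν : (V → Bool) → ℝ) (f g : (V → Bool) → ℝ) :
    ip ν (P ν f) g = (1 / (Fintype.card V : ℝ)) * ∑ v, ip ν (E ν v f) g := by
  unfold ip P
  rw [Finset.sum_comm, Finset.mul_sum]
  apply Finset.sum_congr rfl
  intro σ _
  rw [Finset.mul_sum, Finset.mul_sum, Finset.mul_sum, Finset.sum_mul]
  apply Finset.sum_congr rfl
  intro v _
  ring

theorem ops_ip_P_right (ν : (V → Bool) → ℝ) (f g : (V → Bool) → ℝ) :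
    ip ν f (P ν g) = (1 / (Fintype.card V : ℝ)) * ∑ v, ip ν f (E ν v g) := by
  unfold ip P
  rw [Finset.sum_comm, Finset.mul_sum]
  apply Finset.sum_congr rfl
  intro σ _
  rw [Finset.mul_sum, Finset.mul_sum, Finset.mul_sum]
  apply Finset.sum_congr rfl
  intro v _
  ring

theorem ip_P (ν : (V → Bool) → ℝ) (hν : ∀ σ, 0 < ν σ) (f g : (V → Bool) → ℝ) :
    ip ν (P ν f) g = ip ν f (P ν g) := by
  rw [ops_ip_P_left, ops_ip_P_right]
  congr 1
  apply Finset.sum_congr rfl
  intro v _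
  exact ip_E_left ν hν v f g

theorem ip_P_nonneg (ν : (V → Bool) → ℝ) (hν : ∀ σ, 0 < ν σ) (f : (V → Bool) → ℝ) :
    0 ≤ ip ν f (P ν f) := by
  rw [ops_ip_P_right]
  apply mul_nonneg
  · positivity
  · apply Finset.sum_nonneg
    intro v _
    rw [← ip_E_E ν hν]
    unfold ip
    apply Finset.sum_nonneg
    intro σ _
    rw [mul_assoc]
    exact mul_nonneg (hν σ).le (mul_self_nonneg _)

theorem ops_Dir_v (ν : (V → Bool) → ℝ) (hν : ∀ σ, 0 < ν σ) (v : V) (f : (V → Bool) → ℝ) :
    ip ν f f - ip ν f (E ν v f) =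
      (1 / 2) * ∑ σ, ν σ * ν (fl v σ) / (ν σ + ν (fl v σ)) * (f σ - f (fl v σ)) ^ 2 := by
  unfold ip
  rw [← Finset.sum_sub_distrib, ops_sum_half v]
  congr 1
  apply Finset.sum_congr rfl
  intro σ _
  rw [ops_E_fl, ops_E_eq]
  have h1 := hν σ
  have h2 := hν (fl v σ)
  field_simp
  ring

theorem Dir_eq [Nonempty V] (ν : (V → Bool) → ℝ) (hν : ∀ σ, 0 < ν σ) (f : (V → Bool) → ℝ) :
    Dir ν f = ip ν f f - ip ν f (P ν f) := by
  have hn : (0 : ℝ) < (Fintype.card V : ℝ) := by
    exact_mod_cast Fintype.card_pos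
  have h1 : ip ν f f - ip ν f (P ν f) =
      (1 / (Fintype.card V : ℝ)) * ∑ v, (ip ν f f - ip ν f (E ν v f)) := by
    rw [ops_ip_P_right, Finset.sum_sub_distrib, Finset.sum_const, Finset.card_univ, nsmul_eq_mul,
      mul_sub, ← mul_assoc, one_div, inv_mul_cancel₀ hn.ne', one_mul]
  rw [h1]
  simp only [ops_Dir_v ν hν]
  unfold Dir
  rw [Finset.sum_comm, ← Finset.mul_sum, ← mul_assoc]
  congr 1
  field_simp

theorem P_const [Nonempty V] (ν : (V → Bool) → ℝ) (hν : ∀ σ, 0 < ν σ) (c : ℝ) :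
    P ν (fun _ => c) = fun _ => c := by
  have hn : (0 : ℝ) < (Fintype.card V : ℝ) := by
    exact_mod_cast Fintype.card_pos
  funext σ
  unfold P
  have h : ∀ v : V, E ν v (fun _ => c) σ = c := by
    intro v
    rw [ops_E_eq]
    have h1 := hν σ
    have h2 := hν (fl v σ)
    field_simp
  rw [Finset.sum_congr rfl (fun v _ => h v), Finset.sum_const, Finset.card_univ, nsmul_eq_mul,
    ← mul_assoc, one_div, inv_mul_cancel₀ hn.ne', one_mul]

omit [Fintype V] in
theorem ops_fl_neg (v : V) (σ : V → Bool) : fl v (neg σ) = neg (fl v σ) := by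
  funext x
  unfold fl neg
  by_cases h : x = v
  · subst h
    rw [Function.update_self, Function.update_self]
  · rw [Function.update_of_ne h, Function.update_of_ne h]

theorem P_odd (ν : (V → Bool) → ℝ) (hν : ∀ σ, 0 < ν σ) (he : IsEven ν) (f : (V → Bool) → ℝ)
    (hf : IsOdd f) : IsOdd (P ν f) := by
  intro σ
  unfold P
  rw [← mul_neg, ← Finset.sum_neg_distrib]
  congr 1
  apply Finset.sum_congr rfl
  intro v _
  rw [ops_E_eq, ops_E_eq, ops_fl_neg, he σ, he (fl v σ), hf σ, hf (fl v σ)]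
  ring

theorem ip_odd_one (ν : (V → Bool) → ℝ) (he : IsEven ν) (f : (V → Bool) → ℝ)
    (hf : IsOdd f) : ip ν f (fun _ => 1) = 0 := by
  have h1 : ip ν f (fun _ => 1) = - ip ν f (fun _ => 1) := by
    unfold ip
    have h : Function.Involutive (neg : (V → Bool) → (V → Bool)) := fun σ => by
      funext x
      simp [neg]
    rw [← Finset.sum_neg_distrib, ← Equiv.sum_comp h.toPerm]
    apply Finset.sum_congr rfl
    intro σ _
    show ν (neg σ) * f (neg σ) * 1 = _
    rw [he σ, hf σ]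
    ring
  linarith

/-- Symmetry under permutations of the vertices is kept by `P`. -/
theorem P_perm (ν : (V → Bool) → ℝ) (hν : ∀ σ, 0 < ν σ) (π : Equiv.Perm V)
    (hp : ∀ σ : V → Bool, ν (σ ∘ π) = ν σ) (f : (V → Bool) → ℝ)
    (hf : ∀ σ : V → Bool, f (σ ∘ π) = f σ) (σ : V → Bool) : P ν f (σ ∘ π) = P ν f σ := by
  unfold P
  congr 1
  have h : ∀ v : V, E ν v f (σ ∘ π) = E ν (π v) f σ := by
    intro v
    have h1 : fl v (σ ∘ π) = (fl (π v) σ) ∘ π := by
      funext x
      show Function.update (σ ∘ π) v (!(σ ∘ π) v) x = Function.update σ (π v) (!σ (π v)) (π x)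
      by_cases hx : x = v
      · subst hx
        rw [Function.update_self, Function.update_self]
        rfl
      · rw [Function.update_of_ne hx, Function.update_of_ne (fun h2 => hx (π.injective h2))]
        rfl
    rw [ops_E_eq, ops_E_eq, h1, hp, hp, hf, hf]
  rw [Finset.sum_congr rfl (fun v _ => h v)]
  exact Equiv.sum_comp π (fun v => E ν v f σ)

end Pool.Agent.H983R2.IM
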