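import Pool.Agent.H983R2.IM.Defs

/-! Task SEQ of h983m_tasks (helper48): two lemmas on log-convex sequences. -/

set_option autoImplicit false

namespace Pool.Agent.H983R2.IM

variable {V : Type} [Fintype V] [DecidableEq V]

/-- positivity of all terms of a nonnegative log-convex sequence with positive first two terms -/
theorem seq_pos (b : ℕ → ℝ) (hb0 : ∀ k, 0 ≤ b k)
    (hb : ∀ k, b (k + 1) ^ 2 ≤ b k * b (k + 2)) (h1 : 0 < b 1) : ∀ k, 0 < b k := by
  have hb00 : 0 < b 0 := by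
    rcases (hb0 0).lt_or_eq with h | h
    · exact h
    · have := hb 0
      rw [← h, zero_mul] at this
      have h2 : 0 < b (0 + 1) ^ 2 := by positivity
      linarith
  have key : ∀ k, 0 < b k ∧ 0 < b (k + 1) := by
    intro k
    induction k with
    | zero => exact ⟨hb00, h1⟩
    | succ k ih =>
      refine ⟨ih.2, ?_⟩
      rcases (hb0 (k + 1 + 1)).lt_or_eq with h | h
      · exact h
      · have := hb k
        have h2 : 0 < b (k + 1) ^ 2 := by have := ih.2; positivity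
        have h3 : b (k + 2) = 0 := h.symm
        rw [h3, mul_zero] at this
        linarith
  exact fun k => (key k).1

theorem seq_mono (b : ℕ → ℝ) (hp : ∀ k, 0 < b k)
    (hb : ∀ k, b (k + 1) ^ 2 ≤ b k * b (k + 2)) : Monotone (fun k => b (k + 1) / b k) := by
  apply monotone_nat_of_le_succ
  intro k
  show b (k + 1) / b k ≤ b (k + 1 + 1) / b (k + 1)
  rw [div_le_div_iff₀ (hp k) (hp (k + 1))]
  have := hb k
  nlinarith [this]

/-- Comparison of moments: abstract form of the power method. -/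
theorem moment_compare (a b : ℕ → ℝ) (ρ C : ℝ) (hρ : 0 ≤ ρ) (hC : 0 ≤ C) (hb0 : ∀ k, 0 ≤ b k)
    (hb : ∀ k, b (k + 1) ^ 2 ≤ b k * b (k + 2)) (ha : ∀ k, a k ≤ ρ ^ k * a 0)
    (hab : ∀ k, b k ≤ C * a k) : b 1 ≤ ρ * b 0 := by
  by_contra hcon
  rw [not_le] at hcon
  have h1 : 0 < b 1 := lt_of_le_of_lt (mul_nonneg hρ (hb0 0)) hcon
  have hp := seq_pos b hb0 hb h1
  have hm := seq_mono b hp hb
  set r : ℝ := b 1 / b 0 with hr
  have hr0 : 0 < r := div_pos h1 (hp 0)
  have hρr : ρ < r := by rw [hr, lt_div_iff₀ (hp 0)]; exact hcon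
  have hbk : ∀ k, r ^ k * b 0 ≤ b k := by
    intro k
    induction k with
    | zero => simp
    | succ k ih =>
      have h2 : r ≤ b (k + 1) / b k := by
        have := hm (Nat.zero_le k)
        simpa [hr] using this
      rw [le_div_iff₀ (hp k)] at h2
      calc r ^ (k + 1) * b 0 = r * (r ^ k * b 0) := by ring
        _ ≤ r * b k := mul_le_mul_of_nonneg_left ih hr0.le
        _ ≤ b (k + 1) := h2
  have hmain : ∀ k, r ^ k * b 0 ≤ C * (ρ ^ k * a 0) := fun k =>
    (hbk k).trans ((hab k).trans (mul_le_mul_of_nonneg_left (ha k) hC))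
  rcases hρ.lt_or_eq with hρ0 | hρ0
  · -- unbounded
    have hq : 1 < r / ρ := by rw [lt_div_iff₀ hρ0, one_mul]; exact hρr
    obtain ⟨n, hn⟩ := pow_unbounded_of_one_lt (C * a 0 / b 0) hq
    have h3 := hmain n
    rw [div_lt_iff₀ (hp 0), div_pow, div_mul_eq_mul_div, lt_div_iff₀ (by positivity)] at hn
    nlinarith
  · have h3 := hmain 1
    rw [← hρ0] at h3
    simp at h3
    nlinarith [mul_pos hr0 (hp 0)]

/-- A bounded log-convex positive sequence has converging ratios. -/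
theorem ratio_limit (a : ℕ → ℝ) (h0 : ∀ k, 0 < a k) (h1 : ∀ k, a (k + 1) ≤ a k)
    (hl : ∀ k, a (k + 1) ^ 2 ≤ a k * a (k + 2)) :
    ∃ ρ : ℝ, 0 < ρ ∧ ρ ≤ 1 ∧ Filter.Tendsto (fun k => a (k + 1) / a k) Filter.atTop (nhds ρ) ∧
      ∀ k, a k ≤ ρ ^ k * a 0 := by
  have hm := seq_mono a h0 hl
  have hle : ∀ k, a (k + 1) / a k ≤ 1 := fun k => (div_le_one (h0 k)).2 (h1 k)
  have hbdd : BddAbove (Set.range (fun k => a (k + 1) / a k)) := by
    refine ⟨1, ?_⟩
    rintro _ ⟨k, rfl⟩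
    exact hle k
  have ht := tendsto_atTop_ciSup hm hbdd
  set ρ : ℝ := ⨆ k, a (k + 1) / a k with hρ
  have hr : ∀ k, a (k + 1) / a k ≤ ρ := fun k => le_ciSup hbdd k
  have hρ0 : 0 < ρ := lt_of_lt_of_le (div_pos (h0 1) (h0 0)) (hr 0)
  refine ⟨ρ, hρ0, ciSup_le hle, ht, ?_⟩
  intro k
  induction k with
  | zero => simp
  | succ k ih =>
    have h2 := hr k
    rw [div_le_iff₀ (h0 k)] at h2
    calc a (k + 1) ≤ ρ * a k := h2
      _ ≤ ρ * (ρ ^ k * a 0) := mul_le_mul_of_nonneg_left ih hρ0.le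
      _ = ρ ^ (k + 1) * a 0 := by ring

end Pool.Agent.H983R2.IM
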