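import Pool.Agent.H983R2.IM.Defs
import Pool.Agent.H983R2.IM.Ops
import Pool.Agent.H983R2.IM.Isi
import Pool.Agent.H983R2.IM.Fkg
import Pool.Agent.H983R2.IM.Seq

set_option autoImplicit false

namespace Pool.Agent.H983R2.IM

variable {V : Type} [Fintype V] [DecidableEq V]

lemma eig_ip_symm (ν : (V → Bool) → ℝ) (f g : (V → Bool) → ℝ) : ip ν f g = ip ν g f := by
  unfold ip
  exact Finset.sum_congr rfl fun σ _ => by ring

lemma eig_ip_lin (ν : (V → Bool) → ℝ) (f g h : (V → Bool) → ℝ) (s t : ℝ) :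
    ip ν (fun σ => s * f σ + t * g σ) h = s * ip ν f h + t * ip ν g h := by
  unfold ip
  rw [Finset.mul_sum, Finset.mul_sum, ← Finset.sum_add_distrib]
  exact Finset.sum_congr rfl fun σ _ => by ring

lemma eig_ip_lin' (ν : (V → Bool) → ℝ) (f g h : (V → Bool) → ℝ) (s t : ℝ) :
    ip ν h (fun σ => s * f σ + t * g σ) = s * ip ν h f + t * ip ν h g := by
  rw [eig_ip_symm, eig_ip_lin, eig_ip_symm ν f, eig_ip_symm ν g]

lemma eig_ip_self_nonneg (ν : (V → Bool) → ℝ) (hν : ∀ σ, 0 < ν σ) (f : (V → Bool) → ℝ) :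
    0 ≤ ip ν f f := by
  unfold ip
  exact Finset.sum_nonneg fun σ _ => by
    have := mul_nonneg (hν σ).le (mul_self_nonneg (f σ))
    nlinarith

lemma eig_ip_self_eq_zero (ν : (V → Bool) → ℝ) (hν : ∀ σ, 0 < ν σ) (f : (V → Bool) → ℝ)
    (h : ip ν f f = 0) (σ : V → Bool) : f σ = 0 := by
  unfold ip at h
  rw [Finset.sum_eq_zero_iff_of_nonneg] at h
  · have h1 := h σ (Finset.mem_univ _)
    rw [mul_assoc] at h1
    rcases mul_eq_zero.mp h1 with h2 | h2
    · exact absurd h2 (hν σ).ne'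
    · exact mul_self_eq_zero.mp h2
  · intro τ _
    have := mul_nonneg (hν τ).le (mul_self_nonneg (f τ))
    nlinarith

lemma eig_P_lin (ν : (V → Bool) → ℝ) (f g : (V → Bool) → ℝ) (s t : ℝ) :
    P ν (fun σ => s * f σ + t * g σ) = fun σ => s * P ν f σ + t * P ν g σ := by
  funext σ
  have hE : ∀ v, E ν v (fun σ => s * f σ + t * g σ) σ = s * E ν v f σ + t * E ν v g σ := by
    intro v
    unfold E
    ring
  unfold P
  simp only [hE]
  rw [Finset.sum_add_distrib, ← Finset.mul_sum, ← Finset.mul_sum]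
  ring

lemma eig_Pit_lin (ν : (V → Bool) → ℝ) (f g : (V → Bool) → ℝ) (s t : ℝ) (k : ℕ) :
    (P ν)^[k] (fun σ => s * f σ + t * g σ) =
      fun σ => s * (P ν)^[k] f σ + t * (P ν)^[k] g σ := by
  induction k with
  | zero => rfl
  | succ k ih => rw [Function.iterate_succ_apply', ih, eig_P_lin,
      Function.iterate_succ_apply', Function.iterate_succ_apply']

lemma eig_disc (A B C : ℝ) (h : ∀ t : ℝ, 0 ≤ A + 2 * t * B + t ^ 2 * C) : B ^ 2 ≤ A * C := by
  have h0 : discrim C (2 * B) A ≤ 0 := by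
    apply discrim_le_zero
    intro t
    have := h t
    nlinarith
  unfold discrim at h0
  nlinarith

lemma eig_cs (ν : (V → Bool) → ℝ) (hν : ∀ σ, 0 < ν σ) (f g : (V → Bool) → ℝ) :
    ip ν f g ^ 2 ≤ ip ν f f * ip ν g g := by
  apply eig_disc
  intro t
  have h := eig_ip_self_nonneg ν hν (fun σ => 1 * f σ + t * g σ)
  rw [eig_ip_lin, eig_ip_lin', eig_ip_lin', eig_ip_symm ν g f] at h
  nlinarith

lemma eig_csB (ν : (V → Bool) → ℝ) (hν : ∀ σ, 0 < ν σ) (f g : (V → Bool) → ℝ) :
    ip ν f (P ν g) ^ 2 ≤ ip ν f (P ν f) * ip ν g (P ν g) := by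
  apply eig_disc
  intro t
  have h := ip_P_nonneg ν hν (fun σ => 1 * f σ + t * g σ)
  have hs : ip ν g (P ν f) = ip ν f (P ν g) := by
    rw [← ip_P ν hν, eig_ip_symm]
  rw [eig_P_lin, eig_ip_lin, eig_ip_lin', eig_ip_lin', hs] at h
  nlinarith

lemma eig_shift (ν : (V → Bool) → ℝ) (hν : ∀ σ, 0 < ν σ) (f g : (V → Bool) → ℝ) (i j : ℕ) :
    ip ν ((P ν)^[i] f) ((P ν)^[j] g) = ip ν f ((P ν)^[i + j] g) := by
  induction i generalizing j with
  | zero => simp
  | succ i ih =>
    rw [Function.iterate_succ_apply', ip_P ν hν, ← Function.iterate_succ_apply' (P ν) j g, ih]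
    congr 2
    omega

/-- log-convexity of the moments -/
lemma eig_logconv (ν : (V → Bool) → ℝ) (hν : ∀ σ, 0 < ν σ) (f : (V → Bool) → ℝ) (k : ℕ) :
    ip ν f ((P ν)^[k + 1] f) ^ 2 ≤ ip ν f ((P ν)^[k] f) * ip ν f ((P ν)^[k + 2] f) := by
  rcases Nat.even_or_odd' k with ⟨j, rfl | rfl⟩
  · have h := eig_cs ν hν ((P ν)^[j] f) ((P ν)^[j + 1] f)
    rw [eig_shift ν hν, eig_shift ν hν, eig_shift ν hν] at h
    have e1 : j + (j + 1) = 2 * j + 1 := by ring
    have e2 : j + j = 2 * j := by ring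
    have e3 : j + 1 + (j + 1) = 2 * j + 2 := by ring
    rwa [e1, e2, e3] at h
  · have h := eig_csB ν hν ((P ν)^[j] f) ((P ν)^[j + 1] f)
    rw [← Function.iterate_succ_apply' (P ν), ← Function.iterate_succ_apply' (P ν),
      eig_shift ν hν, eig_shift ν hν, eig_shift ν hν] at h
    have e1 : j + (j + 1 + 1) = 2 * j + 1 + 1 := by ring
    have e2 : j + (j + 1) = 2 * j + 1 := by ring
    have e3 : j + 1 + (j + 1 + 1) = 2 * j + 1 + 2 := by ring
    have e4 : j + Nat.succ (j + 1) = 2 * j + 1 + 1 := by omega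
    have e5 : j + Nat.succ j = 2 * j + 1 := by omega
    have e6 : j + 1 + Nat.succ (j + 1) = 2 * j + 1 + 2 := by omega
    first
      | rwa [e1, e2, e3] at h
      | rwa [e4, e5, e6] at h
      | simpa only [Nat.succ_eq_add_one, e1, e2, e3] using h

lemma eig_even_nonneg (ν : (V → Bool) → ℝ) (hν : ∀ σ, 0 < ν σ) (f : (V → Bool) → ℝ) (k : ℕ) :
    0 ≤ ip ν f ((P ν)^[k] f) := by
  rcases Nat.even_or_odd' k with ⟨j, rfl | rfl⟩
  · have h := eig_ip_self_nonneg ν hν ((P ν)^[j] f)
    rw [eig_shift ν hν] at h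
    have e2 : j + j = 2 * j := by ring
    rwa [e2] at h
  · have h := ip_P_nonneg ν hν ((P ν)^[j] f)
    rw [← Function.iterate_succ_apply' (P ν), eig_shift ν hν] at h
    have e2 : j + (j + 1) = 2 * j + 1 := by ring
    first
      | rwa [e2] at h
      | simpa only [Nat.succ_eq_add_one, e2] using h

lemma eig_P_le [Nonempty V] (ν : (V → Bool) → ℝ) (hν : ∀ σ, 0 < ν σ) (f : (V → Bool) → ℝ) :
    ip ν f (P ν f) ≤ ip ν f f := by
  have h := Dir_eq ν hν f
  have h0 : 0 ≤ Dir ν f := by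
    unfold Dir
    apply mul_nonneg (by positivity)
    apply Finset.sum_nonneg
    intro σ _
    apply Finset.sum_nonneg
    intro v _
    have h1 := hν σ
    have h2 := hν (fl v σ)
    positivity
  linarith

lemma eig_decr [Nonempty V] (ν : (V → Bool) → ℝ) (hν : ∀ σ, 0 < ν σ) (f : (V → Bool) → ℝ)
    (k : ℕ) : ip ν f ((P ν)^[k + 1] f) ≤ ip ν f ((P ν)^[k] f) := by
  rcases Nat.even_or_odd' k with ⟨j, rfl | rfl⟩
  · have h := eig_P_le ν hν ((P ν)^[j] f)
    rw [← Function.iterate_succ_apply' (P ν), eig_shift ν hν, eig_shift ν hν] at h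
    have e1 : j + (j + 1) = 2 * j + 1 := by ring
    have e2 : j + j = 2 * j := by ring
    first
      | rwa [e1, e2] at h
      | simpa only [Nat.succ_eq_add_one, e1, e2] using h
  · have h1 := eig_csB ν hν ((P ν)^[j] f) ((P ν)^[j + 1] f)
    have h2 := eig_P_le ν hν ((P ν)^[j + 1] f)
    have h3 := ip_P_nonneg ν hν ((P ν)^[j] f)
    have h4 := eig_ip_self_nonneg ν hν ((P ν)^[j + 1] f)
    have h5 : ip ν ((P ν)^[j] f) (P ν ((P ν)^[j + 1] f)) =
        ip ν ((P ν)^[j + 1] f) ((P ν)^[j + 1] f) := by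
      rw [← ip_P ν hν, ← Function.iterate_succ_apply' (P ν)]
    have h6 : ip ν ((P ν)^[j] f) (P ν ((P ν)^[j] f)) = ip ν f ((P ν)^[2 * j + 1] f) := by
      rw [← Function.iterate_succ_apply' (P ν), eig_shift ν hν]
      congr 2
      omega
    have h7 : ip ν ((P ν)^[j + 1] f) ((P ν)^[j + 1] f) = ip ν f ((P ν)^[2 * j + 1 + 1] f) := by
      rw [eig_shift ν hν]
      congr 2
      omega
    rw [← h6, ← h7]
    rw [h5] at h1
    rcases h4.eq_or_lt with h0 | hpos
    · rw [← h0]; exact h3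
    · have h8 : ip ν ((P ν)^[j + 1] f) ((P ν)^[j + 1] f) ^ 2 ≤
          ip ν ((P ν)^[j] f) (P ν ((P ν)^[j] f)) *
            ip ν ((P ν)^[j + 1] f) ((P ν)^[j + 1] f) :=
        h1.trans (mul_le_mul_of_nonneg_left h2 h3)
      rw [sq] at h8
      exact le_of_mul_le_mul_right h8 hpos

lemma eig_one_pos (ν : (V → Bool) → ℝ) (hν : ∀ σ, 0 < ν σ) :
    0 < ip ν (fun _ => 1) (fun _ => 1) := by
  unfold ip
  simp only [mul_one]
  exact Finset.sum_pos (fun σ _ => hν σ) Finset.univ_nonempty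

lemma eig_Pit_mono (J : V → V → ℝ) (hs : ∀ x y, J x y = J y x) (hJ : ∀ x y, x ≠ y → 0 ≤ J x y)
    (f : (V → Bool) → ℝ) (hf : Monotone f) (k : ℕ) : Monotone ((P (w J))^[k] f) := by
  induction k with
  | zero => exact hf
  | succ k ih => rw [Function.iterate_succ_apply']; exact P_mono J hs hJ _ ih

lemma eig_Pit_odd (J : V → V → ℝ) (f : (V → Bool) → ℝ) (hf : IsOdd f) (k : ℕ) :
    IsOdd ((P (w J))^[k] f) := by
  induction k with
  | zero => exact hf
  | succ k ih =>
    rw [Function.iterate_succ_apply']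
    exact P_odd (w J) (w_pos J) (w_even J) _ ih

lemma eig_dom (J : V → V → ℝ) (hs : ∀ x y, J x y = J y x) (hJ : ∀ x y, x ≠ y → 0 ≤ J x y)
    (g : (V → Bool) → ℝ) (hg : ip (w J) g (fun _ => 1) = 0) :
    ∃ M : ℝ, ∀ k, ip (w J) g ((P (w J))^[k] g) ≤ M ^ 2 * ip (w J) mag ((P (w J))^[k] mag) := by
  obtain ⟨M, _, hu, hv⟩ := mag_dom g
  refine ⟨M, fun k => ?_⟩
  have hν := w_pos J
  have hu' : Monotone (fun σ => M * mag σ + 1 * g σ) := by simpa using hu
  have hv' : Monotone (fun σ => M * mag σ + (-1) * g σ) := by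
    have : (fun σ => M * mag σ + (-1) * g σ) = fun σ => M * mag σ - g σ := by
      funext σ; ring
    rw [this]; exact hv
  have h := fkg_w J hs hJ _ _ hu' (eig_Pit_mono J hs hJ _ hv' k)
  have h1 : ip (w J) (fun σ => M * mag σ + 1 * g σ) (fun _ => 1) = 0 := by
    rw [eig_ip_lin, ip_odd_one (w J) (w_even J) mag mag_odd, hg]; ring
  rw [h1, zero_mul] at h
  have h2 : 0 ≤ ip (w J) (fun σ => M * mag σ + 1 * g σ)
      ((P (w J))^[k] (fun σ => M * mag σ + (-1) * g σ)) := by
    by_contra hcon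
    push Not at hcon
    have := mul_neg_of_pos_of_neg (eig_one_pos (w J) hν) hcon
    linarith
  rw [eig_Pit_lin, eig_ip_lin, eig_ip_lin', eig_ip_lin'] at h2
  have h3 : ip (w J) g ((P (w J))^[k] mag) = ip (w J) mag ((P (w J))^[k] g) := by
    have := eig_shift (w J) hν mag g k 0
    simp only [Function.iterate_zero, id, add_zero] at this
    rw [← this, eig_ip_symm]
  rw [h3] at h2
  nlinarith

lemma eig_FG [Nonempty V] (J : V → V → ℝ) (hs : ∀ x y, J x y = J y x)
    (hJ : ∀ x y, x ≠ y → 0 ≤ J x y) (ρ : ℝ) (hρ : 0 ≤ ρ)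
    (ha : ∀ k, ip (w J) mag ((P (w J))^[k] mag) ≤ ρ ^ k * ip (w J) mag mag) :
    FG (w J) (1 - ρ) := by
  intro g
  have hν := w_pos J
  set Z := ip (w J) (fun _ => (1:ℝ)) (fun _ => 1) with hZ
  have hZpos : 0 < Z := eig_one_pos (w J) hν
  set c := ip (w J) g (fun _ => 1) / Z with hc
  set gh : (V → Bool) → ℝ := fun σ => 1 * g σ + (-c) * 1 with hgh
  have hgh0 : ip (w J) gh (fun _ => 1) = 0 := by
    rw [hgh, eig_ip_lin (w J) g (fun _ => 1), ← hZ, hc]
    field_simp
    ring
  obtain ⟨M, hM⟩ := eig_dom J hs hJ gh hgh0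
  have hP1 : P (w J) (fun _ => (1:ℝ)) = fun _ => 1 := P_const (w J) hν 1
  have hb0 : ip (w J) gh gh = ip (w J) g g - ip (w J) g (fun _ => 1) ^ 2 / Z := by
    rw [hgh, eig_ip_lin (w J) g (fun _ => 1), eig_ip_lin' (w J) g (fun _ => 1),
      eig_ip_lin' (w J) g (fun _ => 1), eig_ip_symm (w J) (fun _ => 1) g, ← hZ, hc]
    field_simp
    ring
  have hb1 : ip (w J) gh (P (w J) gh) =
      ip (w J) g (P (w J) g) - ip (w J) g (fun _ => 1) ^ 2 / Z := by
    have e1 : ip (w J) (fun _ => (1:ℝ)) (P (w J) g) = ip (w J) g (fun _ => 1) := by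
      rw [← ip_P (w J) hν, hP1, eig_ip_symm]
    rw [hgh, eig_P_lin (w J) g (fun _ => 1), hP1, eig_ip_lin (w J) g (fun _ => 1),
      eig_ip_lin' (w J) (P (w J) g) (fun _ => 1),
      eig_ip_lin' (w J) (P (w J) g) (fun _ => 1), e1, ← hZ, hc]
    field_simp
    ring
  have key := moment_compare (fun k => ip (w J) mag ((P (w J))^[k] mag))
    (fun k => ip (w J) gh ((P (w J))^[k] gh)) ρ (M ^ 2) hρ (sq_nonneg _)
    (fun k => eig_even_nonneg (w J) hν gh k) (fun k => eig_logconv (w J) hν gh k)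
    (fun k => by simpa using ha k) hM
  simp only [Function.iterate_one, Function.iterate_zero, id] at key
  have hD := Dir_eq (w J) hν g
  rw [← hb0, hD]
  rw [hb1] at key
  linarith

lemma eig_mag_pos [Nonempty V] (ν : (V → Bool) → ℝ) (hν : ∀ σ, 0 < ν σ) :
    0 < ip ν mag mag := by
  rcases (eig_ip_self_nonneg ν hν (mag : (V → Bool) → ℝ)).eq_or_lt with h | h
  · exfalso
    have h1 := eig_ip_self_eq_zero ν hν mag h.symm (fun _ => true)
    unfold mag sp at h1
    simp at h1
  · exact h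

lemma eig_mag_perm (π : Equiv.Perm V) (σ : V → Bool) : mag (σ ∘ π) = mag σ := by
  unfold mag
  exact Equiv.sum_comp π (fun v => sp (σ v))

/-- An increasing odd eigenfunction, invariant under all symmetries of the weight that permute the
vertices, which attains the gap. -/
theorem exists_eigen [Nonempty V] (J : V → V → ℝ) (hs : ∀ x y, J x y = J y x)
    (hJ : ∀ x y, x ≠ y → 0 ≤ J x y) :
    ∃ (f : (V → Bool) → ℝ) (ρ : ℝ), 0 ≤ ρ ∧ IsOdd f ∧ Monotone f ∧ 0 < ip (w J) f f ∧
      (∀ π : Equiv.Perm V, (∀ σ : V → Bool, w J (σ ∘ π) = w J σ) →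
        ∀ σ : V → Bool, f (σ ∘ π) = f σ) ∧
      (∀ σ, P (w J) f σ = ρ * f σ) ∧ FG (w J) (1 - ρ) := by
  have hν := w_pos J
  set ν := w J with hνdef
  set a : ℕ → ℝ := fun k => ip ν mag ((P ν)^[k] mag) with ha
  have ha0 : 0 < a 0 := by
    simpa [ha] using eig_mag_pos ν hν
  by_cases h1 : a 1 = 0
  · -- the magnetisation is in the kernel
    have hz : ip ν (P ν mag) (P ν mag) = 0 := by
      have h2 := eig_csB ν hν mag (P ν mag)
      have h3 : ip ν mag (P ν mag) = 0 := by simpa [ha] using h1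
      rw [h3, zero_mul, ← ip_P ν hν] at h2
      have h4 := eig_ip_self_nonneg ν hν (P ν mag)
      nlinarith [sq_nonneg (ip ν (P ν mag) (P ν mag))]
    have hP0 : ∀ σ, P ν mag σ = 0 := eig_ip_self_eq_zero ν hν _ hz
    refine ⟨mag, 0, le_rfl, mag_odd, mag_mono, by simpa [ha] using ha0,
      fun π _ σ => eig_mag_perm π σ, fun σ => by rw [hP0, zero_mul], ?_⟩
    apply eig_FG J hs hJ 0 le_rfl
    intro k
    rcases k with _ | k
    · simp
    · have hk : (P ν)^[k + 1] mag = fun _ => 0 := by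
        induction k with
        | zero => funext σ; simpa using hP0 σ
        | succ k ih =>
          rw [Function.iterate_succ_apply', ih, P_const ν hν 0]
      rw [hk]
      have : ip ν mag (fun _ => (0:ℝ)) = 0 := by unfold ip; simp
      rw [this]
      simp
  · have ha1 : 0 < a 1 := lt_of_le_of_ne (eig_even_nonneg ν hν mag 1) (Ne.symm h1)
    have hlog : ∀ k, a (k + 1) ^ 2 ≤ a k * a (k + 2) := fun k => eig_logconv ν hν mag k
    have hpos2 : ∀ k, 0 < a k ∧ 0 < a (k + 1) := by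
      intro k
      induction k with
      | zero => exact ⟨ha0, ha1⟩
      | succ k ih =>
        refine ⟨ih.2, ?_⟩
        have h2 := hlog k
        have h3 : 0 < a (k + 1) ^ 2 := pow_pos ih.2 2
        by_contra hcon
        push Not at hcon
        have := mul_nonpos_of_nonneg_of_nonpos ih.1.le hcon
        have e : k + 1 + 1 = k + 2 := rfl
        rw [e] at this
        linarith
    have hpos : ∀ k, 0 < a k := fun k => (hpos2 k).1
    obtain ⟨ρ, hρ, _, hlim, hle⟩ := ratio_limit a hpos (fun k => eig_decr ν hν mag k) hlog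
    have hFG : FG ν (1 - ρ) := by
      apply eig_FG J hs hJ ρ hρ.le
      intro k
      simpa [ha] using hle k
    -- compact set
    set K : Set ((V → Bool) → ℝ) := {f | (IsOdd f ∧ Monotone f ∧
      (∀ π : Equiv.Perm V, (∀ σ : V → Bool, ν (σ ∘ π) = ν σ) →
        ∀ σ : V → Bool, f (σ ∘ π) = f σ)) ∧ ip ν f f = 1} with hK
    have hc1 : ∀ σ : V → Bool, Continuous (fun f : (V → Bool) → ℝ => f σ) :=
      fun σ => continuous_apply σ
    have hipc : Continuous (fun f : (V → Bool) → ℝ => ip ν f f) := by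
      unfold ip
      exact continuous_finsetSum _ fun σ _ => (continuous_const.mul (hc1 σ)).mul (hc1 σ)
    have hPc : ∀ σ, Continuous (fun f : (V → Bool) → ℝ => P ν f σ) := by
      intro σ
      unfold P E
      refine continuous_const.mul (continuous_finsetSum _ fun v _ => ?_)
      exact (((continuous_const.mul (hc1 _)).add (continuous_const.mul (hc1 _)))).div_const _
    have hKc : IsClosed K := by
      have e : K = (((⋂ σ, {f : (V → Bool) → ℝ | f (neg σ) = - f σ}) ∩
          (⋂ σ, ⋂ τ, ⋂ (_ : σ ≤ τ), {f : (V → Bool) → ℝ | f σ ≤ f τ})) ∩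
          (⋂ π : Equiv.Perm V, ⋂ (_ : ∀ σ : V → Bool, ν (σ ∘ π) = ν σ),
            ⋂ σ : V → Bool, {f : (V → Bool) → ℝ | f (σ ∘ π) = f σ})) ∩
          {f | ip ν f f = 1} := by
        ext f
        simp only [hK, IsOdd, Monotone, Set.mem_ofPred_eq, Set.mem_inter_iff, Set.mem_iInter]
        constructor
        · rintro ⟨⟨h1, h2, h3⟩, h4⟩
          exact ⟨⟨⟨h1, fun σ τ h => h2 h⟩, h3⟩, h4⟩
        · rintro ⟨⟨⟨h1, h2⟩, h3⟩, h4⟩
          exact ⟨⟨h1, fun σ τ h => h2 σ τ h, h3⟩, h4⟩
      rw [e]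
      refine IsClosed.inter (IsClosed.inter (IsClosed.inter ?_ ?_) ?_) ?_
      · exact isClosed_iInter fun σ => isClosed_eq (hc1 _) (hc1 _).neg
      · exact isClosed_iInter fun σ => isClosed_iInter fun τ => isClosed_iInter fun _ =>
          isClosed_le (hc1 _) (hc1 _)
      · exact isClosed_iInter fun π => isClosed_iInter fun _ => isClosed_iInter fun σ =>
          isClosed_eq (hc1 _) (hc1 _)
      · exact isClosed_eq hipc continuous_const
    have hKb : Bornology.IsBounded K := by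
      set B : ℝ := ∑ σ, (ν σ)⁻¹ with hB
      have hB0 : 0 ≤ B := Finset.sum_nonneg fun σ _ => inv_nonneg.mpr (hν σ).le
      refine (Metric.isBounded_iff_subset_closedBall (0 : (V → Bool) → ℝ)).mpr ⟨1 + B, ?_⟩
      intro f hf
      rw [mem_closedBall_zero_iff, pi_norm_le_iff_of_nonneg (by linarith)]
      intro σ
      have h1 : ν σ * f σ * f σ ≤ 1 := by
        rw [← hf.2]
        unfold ip
        exact Finset.single_le_sum (f := fun σ => ν σ * f σ * f σ)
          (fun τ _ => by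
            have := mul_nonneg (hν τ).le (mul_self_nonneg (f τ))
            show 0 ≤ ν τ * f τ * f τ
            nlinarith) (Finset.mem_univ σ)
      have h2 : (ν σ)⁻¹ ≤ B :=
        Finset.single_le_sum (f := fun σ => (ν σ)⁻¹) (fun τ _ => inv_nonneg.mpr (hν τ).le)
          (Finset.mem_univ σ)
      have h3 : f σ * f σ ≤ (ν σ)⁻¹ := by
        rw [← one_div, le_div_iff₀ (hν σ)]
        linarith
      rw [Real.norm_eq_abs]
      apply abs_le_of_sq_le_sq _ (by linarith)
      nlinarith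
    have hKcomp : IsCompact K := Metric.isCompact_of_isClosed_isBounded hKc hKb
    -- the sequence
    set s : ℕ → ℝ := fun k => (Real.sqrt (a (2 * k)))⁻¹ with hs'
    have hspos : ∀ k, 0 < s k := fun k => inv_pos.mpr (Real.sqrt_pos.mpr (hpos _))
    have hssq : ∀ k, s k * s k * a (2 * k) = 1 := by
      intro k
      have h1 : Real.sqrt (a (2 * k)) ≠ 0 := (Real.sqrt_pos.mpr (hpos _)).ne'
      have h2 := Real.mul_self_sqrt (hpos (2 * k)).le
      rw [hs']
      field_simp
      nlinarith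
    set F : ℕ → (V → Bool) → ℝ := fun k σ => s k * (P ν)^[k] mag σ + 0 * (P ν)^[k] mag σ with hF
    have hFK : ∀ k, F k ∈ K := by
      intro k
      refine ⟨⟨?_, ?_, ?_⟩, ?_⟩
      · intro σ
        have := eig_Pit_odd J mag mag_odd k σ
        simp only [hF]
        rw [this]; ring
      · intro σ τ h
        have := eig_Pit_mono J hs hJ mag mag_mono k h
        simp only [hF, zero_mul, add_zero]
        exact mul_le_mul_of_nonneg_left this (hspos k).le
      · intro π hπ σ
        have h2 : ∀ k (σ : V → Bool), (P ν)^[k] mag (σ ∘ π) = (P ν)^[k] mag σ := by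
          intro k
          induction k with
          | zero => exact fun σ => eig_mag_perm π σ
          | succ k ih =>
            intro σ
            rw [Function.iterate_succ_apply']
            exact P_perm ν hν π hπ _ ih σ
        simp only [hF, h2]
      · simp only [hF]
        rw [eig_ip_lin, eig_ip_lin', eig_shift ν hν]
        have e : k + k = 2 * k := by ring
        rw [e]
        have := hssq k
        simp only [ha] at this
        linear_combination this
    set Φ : ((V → Bool) → ℝ) → ℝ := fun f =>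
      ip ν (fun σ => 1 * P ν f σ + (-ρ) * f σ) (fun σ => 1 * P ν f σ + (-ρ) * f σ) with hΦ
    have hΦc : Continuous Φ := by
      simp only [hΦ]
      unfold ip
      refine continuous_finsetSum _ fun σ _ => ?_
      exact (continuous_const.mul ((continuous_const.mul (hPc σ)).add
        (continuous_const.mul (hc1 σ)))).mul ((continuous_const.mul (hPc σ)).add
        (continuous_const.mul (hc1 σ)))
    have hΦF : ∀ k, Φ (F k) = a (2 * k + 1 + 1) / a (2 * k + 1) * (a (2 * k + 1) / a (2 * k)) -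
        2 * ρ * (a (2 * k + 1) / a (2 * k)) + ρ ^ 2 := by
      intro k
      have e0 : ∀ f g : (V → Bool) → ℝ, ip ν (P ν f) g = ip ν f (P ν g) := ip_P ν hν
      have hPF : P ν (F k) = fun σ => s k * (P ν)^[k + 1] mag σ + 0 * (P ν)^[k + 1] mag σ := by
        simp only [hF]
        rw [eig_P_lin, Function.iterate_succ_apply']
      have x1 : ip ν (F k) (F k) = 1 := (hFK k).2
      have x2 : ip ν (P ν (F k)) (F k) = s k * s k * a (2 * k + 1) := by
        rw [hPF]
        simp only [hF]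
        rw [eig_ip_lin, eig_ip_lin', eig_shift ν hν]
        have e : k + 1 + k = 2 * k + 1 := by ring
        rw [e]
        simp only [ha]
        ring
      have x3 : ip ν (P ν (F k)) (P ν (F k)) = s k * s k * a (2 * k + 1 + 1) := by
        rw [hPF, eig_ip_lin, eig_ip_lin', eig_shift ν hν]
        have e : k + 1 + (k + 1) = 2 * k + 1 + 1 := by ring
        rw [e]
        simp only [ha]
        ring
      have x4 : Φ (F k) = s k * s k * a (2 * k + 1 + 1) - 2 * ρ * (s k * s k * a (2 * k + 1)) +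
          ρ ^ 2 := by
        simp only [hΦ]
        rw [eig_ip_lin ν (P ν (F k)) (F k), eig_ip_lin' ν (P ν (F k)) (F k),
          eig_ip_lin' ν (P ν (F k)) (F k), eig_ip_symm ν (F k) (P ν (F k)), x1, x2, x3]
        ring
      have x5 : s k * s k = 1 / a (2 * k) := by
        rw [eq_div_iff (hpos _).ne']
        exact hssq k
      rw [x4, x5]
      have y1 := (hpos (2 * k)).ne'
      have y2 := (hpos (2 * k + 1)).ne'
      field_simp
    have hlim0 : Filter.Tendsto (fun k => Φ (F k)) Filter.atTop (nhds 0) := by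
      have t1 : Filter.Tendsto (fun k : ℕ => a (2 * k + 1) / a (2 * k)) Filter.atTop (nhds ρ) :=
        hlim.comp (Filter.tendsto_atTop_mono (fun k => by
          show k ≤ 2 * k
          omega) Filter.tendsto_id)
      have t2 : Filter.Tendsto (fun k : ℕ => a (2 * k + 1 + 1) / a (2 * k + 1)) Filter.atTop
          (nhds ρ) :=
        hlim.comp (Filter.tendsto_atTop_mono (fun k => by
          show k ≤ 2 * k + 1
          omega) Filter.tendsto_id)
      have t3 := ((t2.mul t1).sub (t1.const_mul (2 * ρ))).add_const (ρ ^ 2)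
      have e : ρ * ρ - 2 * ρ * ρ + ρ ^ 2 = 0 := by ring
      rw [e] at t3
      refine t3.congr fun k => (hΦF k).symm
    obtain ⟨f, hfK, hmin⟩ := hKcomp.exists_isMinOn ⟨F 0, hFK 0⟩ hΦc.continuousOn
    have hΦ0 : Φ f = 0 := by
      apply le_antisymm
      · exact ge_of_tendsto' hlim0 fun k => hmin (hFK k)
      · exact eig_ip_self_nonneg ν hν _
    have hPf := eig_ip_self_eq_zero ν hν _ hΦ0
    refine ⟨f, ρ, hρ.le, hfK.1.1, hfK.1.2.1, by rw [hfK.2]; exact one_pos, hfK.1.2.2, ?_, hFG⟩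
    intro σ
    have := hPf σ
    linarith

end Pool.Agent.H983R2.IM
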