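import Pool.Agent.H983R2.IM.Defs

set_option autoImplicit false

namespace Pool.Agent.H983R2.IM

variable {V : Type} [Fintype V] [DecidableEq V]

omit [DecidableEq V] in
theorem sym_mag (σ : V → Bool) :
    mag σ = ((Finset.univ.filter fun v => σ v = true).card : ℝ) -
      ((Finset.univ.filter fun v => ¬ σ v = true).card : ℝ) := by
  unfold mag sp
  rw [Finset.sum_ite, Finset.sum_const, Finset.sum_const, nsmul_eq_mul, nsmul_eq_mul]
  ring

omit [DecidableEq V] in
theorem sym_mag_neg (σ : V → Bool) : mag (neg σ) = - mag σ := by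
  unfold mag
  rw [← Finset.sum_neg_distrib]
  apply Finset.sum_congr rfl
  intro v _
  unfold neg sp
  cases σ v <;> simp

/-- A symmetric, odd, increasing function is nonnegative where the magnetisation is. -/
theorem sym_nonneg (f : (V → Bool) → ℝ) (ho : IsOdd f) (hm : Monotone f)
    (hsym : ∀ (π : Equiv.Perm V) (σ : V → Bool), f (σ ∘ π) = f σ) (σ : V → Bool)
    (hσ : 0 ≤ mag σ) : 0 ≤ f σ := by
  have hcard : (Finset.univ.filter fun v => ¬ σ v = true).card ≤
      (Finset.univ.filter fun v => σ v = true).card := by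
    rw [sym_mag] at hσ
    have : ((Finset.univ.filter fun v => ¬ σ v = true).card : ℝ) ≤
      ((Finset.univ.filter fun v => σ v = true).card : ℝ) := by linarith
    exact_mod_cast this
  obtain ⟨P, hP, hPc⟩ := Finset.exists_subset_card_eq hcard
  let e : {x // x ∈ (Finset.univ.filter fun v => ¬ σ v = true)} ≃ {x // x ∈ P} :=
    Finset.equivOfCardEq hPc.symm
  let π : Equiv.Perm V := e.extendSubtype
  have hπ : ∀ v, ¬ σ v = true → σ (π v) = true := by
    intro v hv
    have h1 : π v ∈ P := e.extendSubtype_mem v (by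
      rw [Finset.mem_filter]
      exact ⟨Finset.mem_univ _, hv⟩)
    exact (Finset.mem_filter.1 (hP h1)).2
  have hle : (neg σ) ∘ π ≤ σ := by
    intro v
    show (!σ (π v)) ≤ σ v
    by_cases hv : σ v = true
    · rw [hv]
      exact Bool.le_true _
    · rw [hπ v hv]
      simp
  have h1 := hm hle
  rw [hsym π (neg σ), ho σ] at h1
  linarith

theorem sym_nonpos (f : (V → Bool) → ℝ) (ho : IsOdd f) (hm : Monotone f)
    (hsym : ∀ (π : Equiv.Perm V) (σ : V → Bool), f (σ ∘ π) = f σ) (σ : V → Bool)
    (hσ : mag σ ≤ 0) : f σ ≤ 0 := by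
  have h1 := sym_nonneg f ho hm hsym (neg σ) (by rw [sym_mag_neg]; linarith)
  rw [ho σ] at h1
  linarith

theorem sym_update (σ : V → Bool) (v : V) (b : Bool) :
    mag (Function.update σ v b) = sp b +
      ((∑ u ∈ Finset.univ.erase v, (if σ u then 1 else -1 : ℤ) : ℤ) : ℝ) := by
  unfold mag
  rw [← Finset.add_sum_erase _ _ (Finset.mem_univ v), Function.update_self]
  congr 1
  push_cast
  apply Finset.sum_congr rfl
  intro u hu
  rw [Function.update_of_ne (Finset.ne_of_mem_erase hu)]
  unfold sp
  cases σ u <;> simp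

/-- The sign condition for the complete graph. -/
theorem complete_sign (β δ : ℝ) (hβ : 0 ≤ β) (hδ : 0 ≤ δ) (f : (V → Bool) → ℝ) (ho : IsOdd f)
    (hm : Monotone f) (hsym : ∀ (π : Equiv.Perm V) (σ : V → Bool), f (σ ∘ π) = f σ) (v : V)
    (σ : V → Bool) :
    0 ≤ E (w (fun _ _ => β)) v f σ *
      (E (w (fun _ _ => β)) v (fun τ => Real.exp (δ * mag τ ^ 2 / 2) * f τ) σ -
        E (w (fun _ _ => β)) v (fun τ => Real.exp (δ * mag τ ^ 2 / 2)) σ *
          E (w (fun _ _ => β)) v f σ) := by
  have hplus : mag (Function.update σ v true) = 1 +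
      ((∑ u ∈ Finset.univ.erase v, (if σ u then 1 else -1 : ℤ) : ℤ) : ℝ) := by
    rw [sym_update]
    simp [sp]
  have hminus : mag (Function.update σ v false) = -1 +
      ((∑ u ∈ Finset.univ.erase v, (if σ u then 1 else -1 : ℤ) : ℤ) : ℝ) := by
    rw [sym_update]
    simp [sp]
  have hmono : f (Function.update σ v false) ≤ f (Function.update σ v true) := by
    apply hm
    intro u
    by_cases hu : u = v
    · subst hu
      rw [Function.update_self, Function.update_self]
      exact Bool.false_le _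
    · rw [Function.update_of_ne hu, Function.update_of_ne hu]
  have hp1 := sym_nonneg f ho hm hsym (Function.update σ v true)
  have hp2 := sym_nonneg f ho hm hsym (Function.update σ v false)
  have hn1 := sym_nonpos f ho hm hsym (Function.update σ v true)
  have hn2 := sym_nonpos f ho hm hsym (Function.update σ v false)
  have ha : 0 < w (fun _ _ => β) (Function.update σ v true) := Real.exp_pos _
  have hb : 0 < w (fun _ _ => β) (Function.update σ v false) := Real.exp_pos _
  unfold E
  beta_reduce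
  rw [hplus] at hp1 hn1 ⊢
  rw [hminus] at hp2 hn2 ⊢
  generalize (∑ u ∈ Finset.univ.erase v, (if σ u then 1 else -1 : ℤ)) = k at hp1 hp2 hn1 hn2 ⊢
  generalize w (fun _ _ => β) (Function.update σ v true) = a at ha ⊢
  generalize w (fun _ _ => β) (Function.update σ v false) = b at hb ⊢
  generalize f (Function.update σ v true) = F at hmono hp1 hn1 ⊢
  generalize f (Function.update σ v false) = G at hmono hp2 hn2 ⊢
  have hcov : ∀ φ ψ : ℝ, (a * (φ * F) + b * (ψ * G)) / (a + b) -
      (a * φ + b * ψ) / (a + b) * ((a * F + b * G) / (a + b)) =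
      a * b * (φ - ψ) * (F - G) / (a + b) ^ 2 := by
    intro φ ψ
    have : a + b ≠ 0 := by positivity
    field_simp
    ring
  rw [hcov]
  have hFG : 0 ≤ F - G := by linarith
  rcases lt_trichotomy k 0 with hk | hk | hk
  · have hk' : (k : ℝ) ≤ -1 := by
      have : k ≤ -1 := by omega
      exact_mod_cast this
    have hF := hn1 (by linarith)
    have hG := hn2 (by linarith)
    have h1 : Real.exp (δ * (1 + (k : ℝ)) ^ 2 / 2) ≤ Real.exp (δ * (-1 + (k : ℝ)) ^ 2 / 2) := by
      apply Real.exp_le_exp.2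
      have : (1 + (k : ℝ)) ^ 2 ≤ (-1 + (k : ℝ)) ^ 2 := by nlinarith
      have := mul_le_mul_of_nonneg_left this hδ
      linarith
    apply mul_nonneg_of_nonpos_of_nonpos
    · apply div_nonpos_of_nonpos_of_nonneg _ (by positivity)
      nlinarith
    · apply div_nonpos_of_nonpos_of_nonneg _ (by positivity)
      have h2 : 0 ≤ a * b * (F - G) := by positivity
      have h3 : a * b * (Real.exp (δ * (1 + (k : ℝ)) ^ 2 / 2) -
          Real.exp (δ * (-1 + (k : ℝ)) ^ 2 / 2)) * (F - G) =
          (a * b * (F - G)) * (Real.exp (δ * (1 + (k : ℝ)) ^ 2 / 2) -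
          Real.exp (δ * (-1 + (k : ℝ)) ^ 2 / 2)) := by ring
      rw [h3]
      exact mul_nonpos_of_nonneg_of_nonpos h2 (by linarith)
  · rw [hk]
    simp
  · have hk' : (1 : ℝ) ≤ k := by
      have : 1 ≤ k := by omega
      exact_mod_cast this
    have hF := hp1 (by linarith)
    have hG := hp2 (by linarith)
    have h1 : Real.exp (δ * (-1 + (k : ℝ)) ^ 2 / 2) ≤ Real.exp (δ * (1 + (k : ℝ)) ^ 2 / 2) := by
      apply Real.exp_le_exp.2
      have : (-1 + (k : ℝ)) ^ 2 ≤ (1 + (k : ℝ)) ^ 2 := by nlinarith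
      have := mul_le_mul_of_nonneg_left this hδ
      linarith
    have h2 : 0 ≤ Real.exp (δ * (1 + (k : ℝ)) ^ 2 / 2) -
        Real.exp (δ * (-1 + (k : ℝ)) ^ 2 / 2) := by linarith
    positivity

end Pool.Agent.H983R2.IM
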