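import Pool.Agent.H983R2.IM.Defs

set_option autoImplicit false

namespace Pool.Agent.H983R2.IM

variable {V : Type} [Fintype V] [DecidableEq V]

theorem til_fl_fl (v : V) (σ : V → Bool) : fl v (fl v σ) = σ := by
  unfold fl
  simp

/-- the heat bath operator in terms of the flip -/
theorem til_E (ν : (V → Bool) → ℝ) (v : V) (f : (V → Bool) → ℝ) (σ : V → Bool) :
    E ν v f σ = (ν σ * f σ + ν (fl v σ) * f (fl v σ)) / (ν σ + ν (fl v σ)) := by
  unfold E fl
  cases h : σ v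
  · have h1 : Function.update σ v false = σ := by rw [← h, Function.update_eq_self]
    rw [h1, Bool.not_false, add_comm (ν (Function.update σ v true) * _) (ν σ * _),
      add_comm (ν (Function.update σ v true)) (ν σ)]
  · have h1 : Function.update σ v true = σ := by rw [← h, Function.update_eq_self]
    rw [h1, Bool.not_true]

theorem til_E_fl (ν : (V → Bool) → ℝ) (v : V) (f : (V → Bool) → ℝ) (σ : V → Bool) :
    E ν v f (fl v σ) = E ν v f σ := by
  rw [til_E, til_E, til_fl_fl, add_comm (ν (fl v σ) * _) (ν σ * _), add_comm (ν (fl v σ)) (ν σ)]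

/-- symmetrisation with respect to the flip -/
theorem til_nonneg_of_pair (v : V) (G : (V → Bool) → ℝ) (h : ∀ σ, 0 ≤ G σ + G (fl v σ)) :
    0 ≤ ∑ σ, G σ := by
  let e : Equiv.Perm (V → Bool) := ⟨fl v, fl v, til_fl_fl v, til_fl_fl v⟩
  have h1 : ∑ σ, G (fl v σ) = ∑ σ, G σ := Equiv.sum_comp e G
  have h2 : 0 ≤ ∑ σ, (G σ + G (fl v σ)) := Finset.sum_nonneg fun σ _ => h σ
  rw [Finset.sum_add_distrib, h1] at h2
  linarith

/-- the inequality for a pair -/
theorem til_pair (a b p q x y : ℝ) (ha : 0 < a) (hb : 0 < b) (hp : 0 < p) (hq : 0 < q) :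
    (p * a) * (q * b) / (p * a + q * b) * (x - y) ^ 2 ≤
      p * a * x * x + q * b * y * y
        - ((p * a) * ((a * x + b * y) / (a + b)) * x + (q * b) * ((a * x + b * y) / (a + b)) * y)
        - (a + b) * ((a * x + b * y) / (a + b)) *
          ((a * (p * x) + b * (q * y)) / (a + b) -
            (a * p + b * q) / (a + b) * ((a * x + b * y) / (a + b))) := by
  have hab : a + b ≠ 0 := by positivity
  have hA : 0 < p * a := by positivity
  have hB : 0 < q * b := by positivity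
  set m := (a * x + b * y) / (a + b) with hm
  have e1 : (a + b) * m * ((a * (p * x) + b * (q * y)) / (a + b) -
      (a * p + b * q) / (a + b) * m) =
      m * (a * (p * x) + b * (q * y)) - (a * p + b * q) * m ^ 2 := by
    field_simp
  rw [e1, div_mul_eq_mul_div, div_le_iff₀ (by positivity)]
  nlinarith [sq_nonneg (p * a * (x - m) + q * b * (y - m))]

/-- Tilting by a function of the vertices: upper bound for the Dirichlet form. -/
theorem Dir_tilt [Nonempty V] (ν φ : (V → Bool) → ℝ) (hν : ∀ σ, 0 < ν σ) (hφ : ∀ σ, 0 < φ σ)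
    (f : (V → Bool) → ℝ) (ρ : ℝ) (hf : ∀ σ, P ν f σ = ρ * f σ) :
    Dir (fun σ => φ σ * ν σ) f ≤ (1 - ρ) * ip (fun σ => φ σ * ν σ) f f -
      (1 / (Fintype.card V : ℝ)) * ∑ v, ip ν (E ν v f)
        (fun σ => E ν v (fun τ => φ τ * f τ) σ - E ν v φ σ * E ν v f σ) := by
  have hn : (0 : ℝ) < (Fintype.card V : ℝ) := by
    exact_mod_cast Fintype.card_pos
  set n : ℝ := (Fintype.card V : ℝ) with hn'
  -- the bound for every vertex
  have hv : ∀ v : V, (1 / 2 : ℝ) * ∑ σ, (φ σ * ν σ) * (φ (fl v σ) * ν (fl v σ)) /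
        (φ σ * ν σ + φ (fl v σ) * ν (fl v σ)) * (f σ - f (fl v σ)) ^ 2 ≤
      ∑ σ, φ σ * ν σ * f σ * f σ - ∑ σ, φ σ * ν σ * E ν v f σ * f σ -
        ip ν (E ν v f) (fun σ => E ν v (fun τ => φ τ * f τ) σ - E ν v φ σ * E ν v f σ) := by
    intro v
    have key := til_nonneg_of_pair v (fun σ => φ σ * ν σ * f σ * f σ
      - φ σ * ν σ * E ν v f σ * f σ
      - ν σ * E ν v f σ * (E ν v (fun τ => φ τ * f τ) σ - E ν v φ σ * E ν v f σ)
      - (1 / 2 : ℝ) * ((φ σ * ν σ) * (φ (fl v σ) * ν (fl v σ)) /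
        (φ σ * ν σ + φ (fl v σ) * ν (fl v σ)) * (f σ - f (fl v σ)) ^ 2)) ?_
    · simp only [Finset.sum_sub_distrib, ← Finset.mul_sum] at key
      unfold ip
      linarith
    · intro σ
      simp only [til_E_fl, til_fl_fl]
      have h1 := til_pair (ν σ) (ν (fl v σ)) (φ σ) (φ (fl v σ)) (f σ) (f (fl v σ)) (hν _) (hν _)
        (hφ _) (hφ _)
      have h2 : (φ (fl v σ) * ν (fl v σ)) * (φ σ * ν σ) /
          (φ (fl v σ) * ν (fl v σ) + φ σ * ν σ) * (f (fl v σ) - f σ) ^ 2 =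
          (φ σ * ν σ) * (φ (fl v σ) * ν (fl v σ)) /
            (φ σ * ν σ + φ (fl v σ) * ν (fl v σ)) * (f σ - f (fl v σ)) ^ 2 := by
        rw [mul_comm (φ (fl v σ) * ν (fl v σ)) (φ σ * ν σ),
          add_comm (φ (fl v σ) * ν (fl v σ)) (φ σ * ν σ)]
        ring
      rw [h2]
      have e1 := til_E ν v f σ
      have e2 := til_E ν v (fun τ => φ τ * f τ) σ
      have e3 := til_E ν v φ σ
      rw [← e1] at h1
      rw [← e2, ← e3] at h1
      linarith
  -- sum over the vertices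
  have hsum := Finset.sum_le_sum fun v (_ : v ∈ (Finset.univ : Finset V)) => hv v
  simp only [Finset.sum_sub_distrib, ← Finset.mul_sum] at hsum
  have hP : ∑ v, ∑ σ, φ σ * ν σ * E ν v f σ * f σ =
      n * (ρ * ∑ σ, φ σ * ν σ * f σ * f σ) := by
    rw [Finset.sum_comm, Finset.mul_sum, Finset.mul_sum]
    refine Finset.sum_congr rfl fun σ _ => ?_
    have h1 : ∑ v, E ν v f σ = n * (ρ * f σ) := by
      rw [← hf σ]
      unfold P
      rw [← mul_assoc, mul_one_div_cancel hn.ne', one_mul]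
    calc ∑ v, φ σ * ν σ * E ν v f σ * f σ = φ σ * ν σ * (∑ v, E ν v f σ) * f σ := by
          rw [Finset.mul_sum, Finset.sum_mul]
      _ = n * (ρ * (φ σ * ν σ * f σ * f σ)) := by rw [h1]; ring
  have hc : ∑ _v : V, ∑ σ, φ σ * ν σ * f σ * f σ = n * ∑ σ, φ σ * ν σ * f σ * f σ := by
    rw [Finset.sum_const, Finset.card_univ, nsmul_eq_mul]
  rw [hP, hc] at hsum
  have hD : Dir (fun σ => φ σ * ν σ) f = (1 / n) * ((1 / 2 : ℝ) * ∑ v, ∑ σ,
      (φ σ * ν σ) * (φ (fl v σ) * ν (fl v σ)) /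
        (φ σ * ν σ + φ (fl v σ) * ν (fl v σ)) * (f σ - f (fl v σ)) ^ 2) := by
    unfold Dir
    rw [Finset.sum_comm, ← mul_assoc]
    congr 1
    rw [one_div_mul_one_div, mul_comm n 2]
  rw [hD]
  have h3 := mul_le_mul_of_nonneg_left hsum (show 0 ≤ 1 / n by positivity)
  refine h3.trans (le_of_eq ?_)
  unfold ip
  field_simp

end Pool.Agent.H983R2.IM
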