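import Pool.Agent.H983R2.IM.Defs
import Pool.Agent.H983R2.IM.Isi
import Pool.Agent.H983R2.IM.Eig
import Pool.Agent.H983R2.IM.Til
import Pool.Agent.H983R2.IM.Sym

set_option autoImplicit false

namespace Pool.Agent.H983R2.IM

variable {V : Type} [Fintype V] [DecidableEq V]







theorem com_H (β : ℝ) (σ : V → Bool) : H (fun _ _ : V => β) σ = β * mag σ ^ 2 / 2 := by
  unfold H mag
  rw [sq, Finset.sum_mul_sum, Finset.mul_sum]
  congr 1
  refine Finset.sum_congr rfl fun i _ => ?_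
  rw [Finset.mul_sum]
  refine Finset.sum_congr rfl fun j _ => ?_
  ring

theorem com_w (β β' : ℝ) (σ : V → Bool) : w (fun _ _ : V => β') σ =
    Real.exp ((β' - β) * mag σ ^ 2 / 2) * w (fun _ _ : V => β) σ := by
  unfold w
  rw [com_H, com_H, ← Real.exp_add]
  congr 1
  ring

theorem com_mag (π : Equiv.Perm V) (σ : V → Bool) : mag (σ ∘ π) = mag σ := by
  unfold mag
  exact Equiv.sum_comp π (fun v => sp (σ v))

theorem com_var (ν : (V → Bool) → ℝ) (hν : ∀ σ, 0 < ν σ) (g : (V → Bool) → ℝ) :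
    0 ≤ ip ν g g - ip ν g (fun _ => 1) ^ 2 / ip ν (fun _ => 1) (fun _ => 1) := by
  have h1 : 0 < ip ν (fun _ => 1) (fun _ => 1) := by
    unfold ip
    exact Finset.sum_pos (fun σ _ => by have := hν σ; positivity) Finset.univ_nonempty
  rw [sub_nonneg, div_le_iff₀ h1]
  have h2 := Finset.sum_mul_sq_le_sq_mul_sq Finset.univ
    (fun σ => Real.sqrt (ν σ) * g σ) (fun σ => Real.sqrt (ν σ))
  have e1 : ∀ σ, Real.sqrt (ν σ) * g σ * Real.sqrt (ν σ) = ν σ * g σ * 1 := by
    intro σ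
    have := Real.mul_self_sqrt (hν σ).le
    linear_combination (g σ) * this
  have e2 : ∀ σ, (Real.sqrt (ν σ) * g σ) ^ 2 = ν σ * g σ * g σ := by
    intro σ
    have := Real.mul_self_sqrt (hν σ).le
    linear_combination (g σ * g σ) * this
  have e3 : ∀ σ, (Real.sqrt (ν σ)) ^ 2 = ν σ * 1 * 1 := by
    intro σ
    have := Real.mul_self_sqrt (hν σ).le
    linear_combination this
  simp only [e1, e2, e3] at h2
  exact h2

/-- Monotonicity for the complete graph. -/
theorem FG_complete [Nonempty V] (β β' c : ℝ) (h0 : 0 ≤ β) (h1 : β ≤ β')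
    (h : OG (w (fun _ _ : V => β')) c) : FG (w (fun _ _ : V => β)) c := by
  obtain ⟨f, ρ, hρ, hodd, hmono, hpos, hsym, heig, hFG⟩ :=
    exists_eigen (fun _ _ : V => β) (fun _ _ => rfl) (fun _ _ _ => h0)
  have hsym' : ∀ (π : Equiv.Perm V) (σ : V → Bool), f (σ ∘ π) = f σ := by
    intro π σ
    refine hsym π (fun τ => ?_) σ
    unfold w
    rw [com_H, com_H, com_mag]
  have hwpos : ∀ (b : ℝ) (σ : V → Bool), 0 < w (fun _ _ : V => b) σ := fun b σ => Real.exp_pos _
  have ht := Dir_tilt (w (fun _ _ : V => β)) (fun σ => Real.exp ((β' - β) * mag σ ^ 2 / 2))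
    (hwpos β) (fun σ => Real.exp_pos _) f ρ heig
  have hw : (fun σ => Real.exp ((β' - β) * mag σ ^ 2 / 2) * w (fun _ _ : V => β) σ) =
      w (fun _ _ : V => β') := by
    funext σ; rw [com_w β β']
  rw [hw] at ht
  have hneg : 0 ≤ (1 / (Fintype.card V : ℝ)) * ∑ v, ip (w (fun _ _ : V => β))
      (E (w (fun _ _ : V => β)) v f)
        (fun σ => E (w (fun _ _ : V => β)) v (fun τ => Real.exp ((β' - β) * mag τ ^ 2 / 2) * f τ) σ -
          E (w (fun _ _ : V => β)) v (fun σ => Real.exp ((β' - β) * mag σ ^ 2 / 2)) σ *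
            E (w (fun _ _ : V => β)) v f σ) := by
    apply mul_nonneg (by positivity)
    refine Finset.sum_nonneg fun v _ => Finset.sum_nonneg fun σ _ => ?_
    rw [mul_assoc]
    exact mul_nonneg (hwpos β σ).le
      (complete_sign β (β' - β) h0 (sub_nonneg.2 h1) f hodd hmono hsym' v σ)
  have hD : Dir (w (fun _ _ : V => β')) f ≤ (1 - ρ) * ip (w (fun _ _ : V => β')) f f := by
    linarith
  have hOG := h f hodd
  have hpos' : 0 < ip (w (fun _ _ : V => β')) f f := by
    unfold ip at hpos ⊢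
    obtain ⟨σ, _, hσ⟩ := Finset.exists_lt_of_sum_lt (s := Finset.univ)
      (f := fun _ : V → Bool => (0 : ℝ)) (by simpa using hpos)
    refine Finset.sum_pos' (fun τ _ => ?_) ⟨σ, Finset.mem_univ _, ?_⟩
    · rw [mul_assoc]; exact mul_nonneg (hwpos β' τ).le (mul_self_nonneg _)
    · rw [mul_assoc] at hσ ⊢
      exact mul_pos (hwpos β' σ) ((pos_iff_pos_of_mul_pos hσ).1 (hwpos β σ))
  have hc : c ≤ 1 - ρ := by
    have : c * ip (w (fun _ _ : V => β')) f f ≤ (1 - ρ) * ip (w (fun _ _ : V => β')) f f :=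
      hOG.trans hD
    exact le_of_mul_le_mul_right this hpos'
  intro g
  refine (mul_le_mul_of_nonneg_right hc ?_).trans (hFG g)
  exact com_var _ (hwpos β) g

end Pool.Agent.H983R2.IM
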