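import Mathlib

/-!
Monotonicity of the relaxation time of Glauber dynamics for the Ising model (MP_f82811_pr,
MP_e532e2_pr): definitions.
-/

set_option autoImplicit false

namespace Pool.Agent.H983R2.IM

variable {V : Type} [Fintype V] [DecidableEq V]

/-- The sign of a Boolean. -/
def sp (b : Bool) : ℝ := if b then 1 else -1

/-- Flip one spin. -/
def fl (v : V) (σ : V → Bool) : V → Bool := Function.update σ v (!σ v)

/-- Flip all spins. -/
def neg (σ : V → Bool) : V → Bool := fun v => !σ v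

/-- Flip the spins in `A`. -/
def gf (A : Finset V) (σ : V → Bool) : V → Bool := fun v => if v ∈ A then !σ v else σ v

/-- Conditional expectation (heat bath) at the vertex `v` under the weight `ν`. -/
noncomputable def E (ν : (V → Bool) → ℝ) (v : V) (f : (V → Bool) → ℝ) (σ : V → Bool) : ℝ :=
  (ν (Function.update σ v true) * f (Function.update σ v true) +
    ν (Function.update σ v false) * f (Function.update σ v false)) /
  (ν (Function.update σ v true) + ν (Function.update σ v false))

/-- Transition operator of heat-bath Glauber dynamics. -/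
noncomputable def P (ν : (V → Bool) → ℝ) (f : (V → Bool) → ℝ) (σ : V → Bool) : ℝ :=
  (1 / (Fintype.card V : ℝ)) * ∑ v, E ν v f σ

/-- The (unnormalised) inner product. -/
noncomputable def ip (ν : (V → Bool) → ℝ) (f g : (V → Bool) → ℝ) : ℝ := ∑ σ, ν σ * f σ * g σ

/-- The Dirichlet form of heat-bath Glauber dynamics for the (unnormalised) weight `ν`. -/
noncomputable def Dir (ν : (V → Bool) → ℝ) (f : (V → Bool) → ℝ) : ℝ :=
  (1 / (2 * (Fintype.card V : ℝ))) *
    ∑ σ, ∑ v, ν σ * ν (fl v σ) / (ν σ + ν (fl v σ)) * (f σ - f (fl v σ)) ^ 2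

/-- Odd functions. -/
def IsOdd (f : (V → Bool) → ℝ) : Prop := ∀ σ, f (neg σ) = - f σ

/-- Even functions. -/
def IsEven (f : (V → Bool) → ℝ) : Prop := ∀ σ, f (neg σ) = f σ

/-- Poincare inequality with constant `c` for odd functions. -/
def OG (ν : (V → Bool) → ℝ) (c : ℝ) : Prop := ∀ f, IsOdd f → c * ip ν f f ≤ Dir ν f

/-- Poincare inequality with constant `c` for all functions. -/
def FG (ν : (V → Bool) → ℝ) (c : ℝ) : Prop :=
  ∀ f, c * (ip ν f f - ip ν f (fun _ => 1) ^ 2 / ip ν (fun _ => 1) (fun _ => 1)) ≤ Dir ν f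

/-- Minus the energy. -/
noncomputable def H (J : V → V → ℝ) (σ : V → Bool) : ℝ :=
  (∑ i, ∑ j, J i j * sp (σ i) * sp (σ j)) / 2

/-- The Ising weight. -/
noncomputable def w (J : V → V → ℝ) (σ : V → Bool) : ℝ := Real.exp (H J σ)

/-- The sum of the spins. -/
noncomputable def mag (σ : V → Bool) : ℝ := ∑ v, sp (σ v)

/-- Replace the coupling of the pair `{a,b}`. -/
noncomputable def setP (J : V → V → ℝ) (a b : V) (t : ℝ) : V → V → ℝ := fun x y =>
  if (x = a ∧ y = b) ∨ (x = b ∧ y = a) then t else J x y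

/-- The pair `{a,b}` is a bridge of `J` (or separates two components of the support of `J`):
some set `A` contains `a` and not `b`, and the only pair of `J` joining `A` to its complement
is `(a,b)`. -/
def Br (J : V → V → ℝ) (a b : V) : Prop :=
  ∃ A : Finset V, a ∈ A ∧ b ∉ A ∧ ∀ x ∈ A, ∀ y ∉ A, J x y ≠ 0 → x = a ∧ y = b

/-- The normalised Ising measure. -/
noncomputable def pim (J : V → V → ℝ) (σ : V → Bool) : ℝ := w J σ / ∑ τ, w J τ

/-- The spectral gap (variational form). -/
noncomputable def gap (J : V → V → ℝ) : ℝ :=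
  sInf {r : ℝ | ∃ f : (V → Bool) → ℝ,
    0 < ∑ σ, pim J σ * (f σ - ∑ τ, pim J τ * f τ) ^ 2 ∧
    r = ((1 / (2 * (Fintype.card V : ℝ))) *
          ∑ σ, ∑ v, pim J σ * pim J (Function.update σ v (!σ v)) /
            (pim J σ + pim J (Function.update σ v (!σ v))) *
            (f σ - f (Function.update σ v (!σ v))) ^ 2) /
        (∑ σ, pim J σ * (f σ - ∑ τ, pim J τ * f τ) ^ 2)}

/-- Ising weight of a graph at inverse temperature `t` (the notation of the problem). -/
noncomputable def mu {n : ℕ} (G : SimpleGraph (Fin n)) [DecidableRel G.Adj] (t : ℝ)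
    (σ : Fin n → Bool) : ℝ :=
  Real.exp (t / 2 * ∑ u : Fin n, ∑ v : Fin n,
      if G.Adj u v then (if σ u = σ v then (1:ℝ) else -1) else 0) /
  ∑ τ : Fin n → Bool, Real.exp (t / 2 * ∑ u : Fin n, ∑ v : Fin n,
      if G.Adj u v then (if τ u = τ v then (1:ℝ) else -1) else 0)

/-- Variance. -/
noncomputable def VarF {n : ℕ} (G : SimpleGraph (Fin n)) [DecidableRel G.Adj] (t : ℝ)
    (f : (Fin n → Bool) → ℝ) : ℝ :=
  ∑ σ : Fin n → Bool, mu G t σ * (f σ - ∑ τ : Fin n → Bool, mu G t τ * f τ) ^ 2

/-- Dirichlet form of heat-bath Glauber dynamics. -/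
noncomputable def DirF {n : ℕ} (G : SimpleGraph (Fin n)) [DecidableRel G.Adj] (t : ℝ)
    (f : (Fin n → Bool) → ℝ) : ℝ :=
  (1 / 2 : ℝ) * ∑ σ : Fin n → Bool, mu G t σ * ∑ v : Fin n, (1 / (n : ℝ)) *
    ∑ b : Bool, mu G t (Function.update σ v b) /
      (mu G t (Function.update σ v true) + mu G t (Function.update σ v false)) *
      (f σ - f (Function.update σ v b)) ^ 2

end Pool.Agent.H983R2.IM
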