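import Pool.Agent.H983R2.IM.Defs

set_option autoImplicit false

namespace Pool.Agent.H983R2.IM

variable {V : Type} [Fintype V] [DecidableEq V]

theorem fia_w_pos (J : V → V → ℝ) (σ : V → Bool) : 0 < w J σ := Real.exp_pos _

theorem fia_Z_pos (J : V → V → ℝ) : 0 < ∑ τ, w J τ :=
  Finset.sum_pos (fun τ _ => fia_w_pos J τ) ⟨fun _ => true, Finset.mem_univ _⟩

theorem fia_pim_pos (J : V → V → ℝ) (σ : V → Bool) : 0 < pim J σ :=
  div_pos (fia_w_pos J σ) (fia_Z_pos J)

theorem fia_pim_sum (J : V → V → ℝ) : ∑ σ, pim J σ = 1 := by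
  unfold pim
  rw [← Finset.sum_div]
  exact div_self (fia_Z_pos J).ne'

/-- variance under the normalised measure -/
noncomputable def fiaVar (J : V → V → ℝ) (f : (V → Bool) → ℝ) : ℝ :=
  ∑ σ, pim J σ * (f σ - ∑ τ, pim J τ * f τ) ^ 2

/-- Dirichlet form under the normalised measure -/
noncomputable def fiaDir (J : V → V → ℝ) (f : (V → Bool) → ℝ) : ℝ :=
  (1 / (2 * (Fintype.card V : ℝ))) *
    ∑ σ, ∑ v, pim J σ * pim J (Function.update σ v (!σ v)) /
      (pim J σ + pim J (Function.update σ v (!σ v))) *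
      (f σ - f (Function.update σ v (!σ v))) ^ 2

theorem fia_var_eq (J : V → V → ℝ) (f : (V → Bool) → ℝ) :
    (∑ τ, w J τ) * fiaVar J f =
      ip (w J) f f - ip (w J) f (fun _ => 1) ^ 2 / ip (w J) (fun _ => 1) (fun _ => 1) := by
  have hZ := fia_Z_pos J
  obtain ⟨Z, hZd⟩ : ∃ Z, Z = ∑ τ, w J τ := ⟨_, rfl⟩
  obtain ⟨m, hm⟩ : ∃ m, m = ∑ τ, pim J τ * f τ := ⟨_, rfl⟩
  rw [← hZd] at hZ
  have h1 : ip (w J) (fun _ => 1) (fun _ => 1) = Z := by
    unfold ip
    rw [hZd]
    exact Finset.sum_congr rfl fun σ _ => by ring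
  have h2 : ip (w J) f (fun _ => 1) = Z * m := by
    unfold ip
    rw [hm, Finset.mul_sum]
    refine Finset.sum_congr rfl fun σ _ => ?_
    unfold pim
    rw [← hZd]
    field_simp
  have h3 : Z * ∑ σ, pim J σ * f σ ^ 2 = ip (w J) f f := by
    unfold ip
    rw [Finset.mul_sum]
    refine Finset.sum_congr rfl fun σ _ => ?_
    unfold pim
    rw [← hZd]
    field_simp
  have h4 : fiaVar J f = ∑ σ, pim J σ * f σ ^ 2 - m ^ 2 := by
    unfold fiaVar
    rw [← hm]
    have h5 : ∀ σ, pim J σ * (f σ - m) ^ 2 =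
        pim J σ * f σ ^ 2 - 2 * m * (pim J σ * f σ) + m ^ 2 * pim J σ := fun σ => by ring
    simp only [h5]
    rw [Finset.sum_add_distrib, Finset.sum_sub_distrib, ← Finset.mul_sum, ← Finset.mul_sum,
      fia_pim_sum, ← hm]
    ring
  rw [← hZd, h1, h2, ← h3, h4]
  field_simp

theorem fia_dir_eq (J : V → V → ℝ) (f : (V → Bool) → ℝ) :
    (∑ τ, w J τ) * fiaDir J f = Dir (w J) f := by
  have hZ := fia_Z_pos J
  obtain ⟨Z, hZd⟩ : ∃ Z, Z = ∑ τ, w J τ := ⟨_, rfl⟩
  rw [← hZd] at hZ ⊢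
  unfold fiaDir Dir
  rw [← mul_assoc, mul_comm Z, mul_assoc, Finset.mul_sum]
  congr 1
  refine Finset.sum_congr rfl fun σ _ => ?_
  rw [Finset.mul_sum]
  refine Finset.sum_congr rfl fun v _ => ?_
  rw [← mul_assoc]
  congr 1
  unfold pim fl
  rw [← hZd]
  have ha := fia_w_pos J σ
  have hb := fia_w_pos J (Function.update σ v (!σ v))
  generalize w J σ = a at ha
  generalize w J (Function.update σ v (!σ v)) = b at hb
  have hab : a + b ≠ 0 := by positivity
  have hab' : a / Z + b / Z ≠ 0 := by positivity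
  rw [← add_div]
  field_simp

theorem fia_dir_nonneg (J : V → V → ℝ) (f : (V → Bool) → ℝ) : 0 ≤ fiaDir J f := by
  unfold fiaDir
  refine mul_nonneg (by positivity) (Finset.sum_nonneg fun σ _ => Finset.sum_nonneg fun v _ => ?_)
  have ha := fia_pim_pos J σ
  have hb := fia_pim_pos J (Function.update σ v (!σ v))
  positivity

theorem fia_var_nonneg (J : V → V → ℝ) (f : (V → Bool) → ℝ) : 0 ≤ fiaVar J f := by
  unfold fiaVar
  refine Finset.sum_nonneg fun σ _ => ?_
  have ha := fia_pim_pos J σ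
  positivity

theorem fia_exists_pos [Nonempty V] (J : V → V → ℝ) : ∃ f : (V → Bool) → ℝ, 0 < fiaVar J f := by
  obtain ⟨v⟩ := (inferInstance : Nonempty V)
  refine ⟨fun σ => sp (σ v), ?_⟩
  rcases (fia_var_nonneg J (fun σ => sp (σ v))).lt_or_eq with h | h
  · exact h
  · exfalso
    unfold fiaVar at h
    have h1 := (Finset.sum_eq_zero_iff_of_nonneg (s := Finset.univ)
      (f := fun σ => pim J σ * (sp (σ v) - ∑ τ, pim J τ * sp (τ v)) ^ 2)
      (fun σ _ => by
        have ha := fia_pim_pos J σ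
        positivity)).1 h.symm
    have h2 : ∀ σ : V → Bool, sp (σ v) = ∑ τ, pim J τ * sp (τ v) := by
      intro σ
      have h3 := h1 σ (Finset.mem_univ σ)
      have h4 : (sp (σ v) - ∑ τ, pim J τ * sp (τ v)) ^ 2 = 0 := by
        rcases mul_eq_zero.1 h3 with h5 | h5
        · exact absurd h5 (fia_pim_pos J σ).ne'
        · exact h5
      have h5 := pow_eq_zero_iff (two_ne_zero) |>.1 h4
      linarith
    have h6 := h2 (fun _ => true)
    have h7 := h2 (fun _ => false)
    rw [← h7] at h6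
    simp only [sp] at h6
    norm_num at h6

theorem le_gap_iff [Nonempty V] (J : V → V → ℝ) (c : ℝ) : c ≤ gap J ↔ FG (w J) c := by
  have hZ := fia_Z_pos J
  have hset : gap J = sInf {r : ℝ | ∃ f : (V → Bool) → ℝ, 0 < fiaVar J f ∧
      r = fiaDir J f / fiaVar J f} := rfl
  have hFG : FG (w J) c ↔ ∀ f, c * fiaVar J f ≤ fiaDir J f := by
    unfold FG
    refine forall_congr' fun f => ?_
    rw [← fia_var_eq, ← fia_dir_eq]
    constructor
    · intro h
      have h1 : (∑ τ, w J τ) * (c * fiaVar J f) ≤ (∑ τ, w J τ) * fiaDir J f := by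
        refine le_trans (le_of_eq ?_) h
        ring
      exact le_of_mul_le_mul_left h1 hZ
    · intro h
      refine le_trans (le_of_eq ?_) (mul_le_mul_of_nonneg_left h hZ.le)
      ring
  rw [hFG, hset]
  constructor
  · intro h f
    rcases (fia_var_nonneg J f).lt_or_eq with hp | hp
    · have h1 : fiaDir J f / fiaVar J f ∈ {r : ℝ | ∃ f : (V → Bool) → ℝ, 0 < fiaVar J f ∧
          r = fiaDir J f / fiaVar J f} := ⟨f, hp, rfl⟩
      have h2 : BddBelow {r : ℝ | ∃ f : (V → Bool) → ℝ, 0 < fiaVar J f ∧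
          r = fiaDir J f / fiaVar J f} := by
        refine ⟨0, ?_⟩
        rintro r ⟨g, hg, rfl⟩
        exact div_nonneg (fia_dir_nonneg J g) hg.le
      have h3 := h.trans (csInf_le h2 h1)
      rwa [le_div_iff₀ hp] at h3
    · rw [← hp, mul_zero]
      exact fia_dir_nonneg J f
  · intro h
    obtain ⟨f0, hf0⟩ := fia_exists_pos J
    refine le_csInf ⟨_, f0, hf0, rfl⟩ ?_
    rintro r ⟨g, hg, rfl⟩
    rw [le_div_iff₀ hg]
    exact h g

theorem gap_of_isEmpty [IsEmpty V] (J : V → V → ℝ) : gap J = 0 := by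
  have hset : gap J = sInf {r : ℝ | ∃ f : (V → Bool) → ℝ, 0 < fiaVar J f ∧
      r = fiaDir J f / fiaVar J f} := rfl
  have hvar : ∀ f : (V → Bool) → ℝ, fiaVar J f = 0 := by
    intro f
    unfold fiaVar
    refine Finset.sum_eq_zero fun σ _ => ?_
    have h1 : ∑ τ, pim J τ * f τ = f σ := by
      have h2 : ∀ τ : V → Bool, f τ = f σ := fun τ => by rw [Subsingleton.elim τ σ]
      simp only [h2]
      rw [← Finset.sum_mul, fia_pim_sum, one_mul]
    rw [h1, sub_self]
    ring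
  rw [hset]
  have hempty : {r : ℝ | ∃ f : (V → Bool) → ℝ, 0 < fiaVar J f ∧
      r = fiaDir J f / fiaVar J f} = ∅ := by
    rw [Set.eq_empty_iff_forall_notMem]
    rintro r ⟨f, hf, -⟩
    rw [hvar f] at hf
    exact lt_irrefl 0 hf
  rw [hempty, Real.sInf_empty]

end Pool.Agent.H983R2.IM
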