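import Pool.Agent.H983R2.IM.Defs
import Pool.Agent.H983R2.IM.Ops
import Pool.Agent.H983R2.IM.Isi
import Pool.Agent.H983R2.IM.Fkg
import Pool.Agent.H983R2.IM.Seq

/-!
The gap of a ferromagnet is attained on odd functions (helper227, for helper983).
-/

set_option autoImplicit false

namespace Pool.Agent.H983R2.IM

variable {V : Type} [Fintype V] [DecidableEq V]

/-! ### Linearity -/

theorem gap_ip_comm (ν f g : (V → Bool) → ℝ) : ip ν f g = ip ν g f := by
  unfold ip
  exact Finset.sum_congr rfl fun σ _ => by ring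

theorem gap_ip_add_left (ν f g h : (V → Bool) → ℝ) : ip ν (f + g) h = ip ν f h + ip ν g h := by
  unfold ip
  rw [← Finset.sum_add_distrib]
  exact Finset.sum_congr rfl fun σ _ => by simp only [Pi.add_apply]; ring

theorem gap_ip_smul_left (ν f h : (V → Bool) → ℝ) (c : ℝ) : ip ν (c • f) h = c * ip ν f h := by
  unfold ip
  rw [Finset.mul_sum]
  exact Finset.sum_congr rfl fun σ _ => by simp only [Pi.smul_apply, smul_eq_mul]; ring

theorem gap_ip_add_right (ν f g h : (V → Bool) → ℝ) : ip ν h (f + g) = ip ν h f + ip ν h g := by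
  rw [gap_ip_comm, gap_ip_add_left, gap_ip_comm ν f, gap_ip_comm ν g]

theorem gap_ip_smul_right (ν f h : (V → Bool) → ℝ) (c : ℝ) : ip ν h (c • f) = c * ip ν h f := by
  rw [gap_ip_comm, gap_ip_smul_left, gap_ip_comm ν f]

theorem gap_ip_sub_left (ν f g h : (V → Bool) → ℝ) : ip ν (f - g) h = ip ν f h - ip ν g h := by
  have : f - g = f + (-1 : ℝ) • g := by ext; simp [sub_eq_add_neg]
  rw [this, gap_ip_add_left, gap_ip_smul_left]; ring

theorem gap_ip_sub_right (ν f g h : (V → Bool) → ℝ) : ip ν h (f - g) = ip ν h f - ip ν h g := by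
  rw [gap_ip_comm, gap_ip_sub_left, gap_ip_comm ν f, gap_ip_comm ν g]

/-- the operator as a linear map -/
noncomputable def gap_PL (ν : (V → Bool) → ℝ) : ((V → Bool) → ℝ) →ₗ[ℝ] ((V → Bool) → ℝ) where
  toFun := P ν
  map_add' f g := by
    ext σ
    simp only [P, E, Pi.add_apply, ← mul_add, ← Finset.sum_add_distrib]
    congr 1
    refine Finset.sum_congr rfl fun v _ => ?_
    rw [← add_div]
    congr 1
    ring
  map_smul' c f := by
    ext σ
    simp only [P, E, Pi.smul_apply, smul_eq_mul, RingHom.id_apply]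
    rw [mul_left_comm, Finset.mul_sum Finset.univ _ c]
    congr 1
    refine Finset.sum_congr rfl fun v _ => ?_
    rw [← mul_div_assoc]
    congr 1
    ring

theorem gap_P_add (ν f g : (V → Bool) → ℝ) : P ν (f + g) = P ν f + P ν g := (gap_PL ν).map_add f g

theorem gap_P_sub (ν f g : (V → Bool) → ℝ) : P ν (f - g) = P ν f - P ν g := (gap_PL ν).map_sub f g

theorem gap_P_smul (ν f : (V → Bool) → ℝ) (c : ℝ) : P ν (c • f) = c • P ν f :=
  (gap_PL ν).map_smul c f

theorem gap_iter_add (ν f g : (V → Bool) → ℝ) (k : ℕ) :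
    (P ν)^[k] (f + g) = (P ν)^[k] f + (P ν)^[k] g := by
  induction k with
  | zero => rfl
  | succ k ih => rw [Function.iterate_succ_apply', Function.iterate_succ_apply',
      Function.iterate_succ_apply', ih, gap_P_add]

theorem gap_iter_sub (ν f g : (V → Bool) → ℝ) (k : ℕ) :
    (P ν)^[k] (f - g) = (P ν)^[k] f - (P ν)^[k] g := by
  induction k with
  | zero => rfl
  | succ k ih => rw [Function.iterate_succ_apply', Function.iterate_succ_apply',
      Function.iterate_succ_apply', ih, gap_P_sub]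

theorem gap_iter_smul (ν f : (V → Bool) → ℝ) (c : ℝ) (k : ℕ) :
    (P ν)^[k] (c • f) = c • (P ν)^[k] f := by
  induction k with
  | zero => rfl
  | succ k ih => rw [Function.iterate_succ_apply', Function.iterate_succ_apply', ih, gap_P_smul]

theorem gap_iter_sa (ν : (V → Bool) → ℝ) (hν : ∀ σ, 0 < ν σ) (f g : (V → Bool) → ℝ) (k : ℕ) :
    ip ν ((P ν)^[k] f) g = ip ν f ((P ν)^[k] g) := by
  induction k generalizing f g with
  | zero => rfl
  | succ k ih => rw [Function.iterate_succ_apply, Function.iterate_succ_apply', ih, ip_P ν hν]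

/-! ### Cauchy-Schwarz -/

theorem gap_cs_aux (A B C : ℝ) (h : ∀ t : ℝ, 0 ≤ A + 2 * t * B + t ^ 2 * C) : B ^ 2 ≤ A * C := by
  have h' : ∀ t : ℝ, 0 ≤ C * (t * t) + (2 * B) * t + A := fun t => by
    have := h t; nlinarith
  have := discrim_le_zero h'
  unfold discrim at this
  nlinarith

theorem gap_ip_self_nonneg (ν : (V → Bool) → ℝ) (hν : ∀ σ, 0 < ν σ) (f : (V → Bool) → ℝ) :
    0 ≤ ip ν f f := by
  unfold ip
  refine Finset.sum_nonneg fun σ _ => ?_
  rw [mul_assoc]
  exact mul_nonneg (hν σ).le (mul_self_nonneg _)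

theorem gap_cs0 (ν : (V → Bool) → ℝ) (hν : ∀ σ, 0 < ν σ) (f g : (V → Bool) → ℝ) :
    ip ν f g ^ 2 ≤ ip ν f f * ip ν g g := by
  apply gap_cs_aux
  intro t
  have h := gap_ip_self_nonneg ν hν (f + t • g)
  rw [gap_ip_add_left, gap_ip_add_right, gap_ip_add_right, gap_ip_smul_left, gap_ip_smul_left,
    gap_ip_smul_right, gap_ip_smul_right, gap_ip_comm ν g f] at h
  nlinarith

theorem gap_cs1 (ν : (V → Bool) → ℝ) (hν : ∀ σ, 0 < ν σ) (f g : (V → Bool) → ℝ) :
    ip ν f (P ν g) ^ 2 ≤ ip ν f (P ν f) * ip ν g (P ν g) := by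
  apply gap_cs_aux
  intro t
  have h := ip_P_nonneg ν hν (f + t • g)
  rw [gap_P_add, gap_P_smul, gap_ip_add_left, gap_ip_add_right, gap_ip_add_right,
    gap_ip_smul_left, gap_ip_smul_left, gap_ip_smul_right, gap_ip_smul_right,
    show ip ν g (P ν f) = ip ν f (P ν g) by rw [← ip_P ν hν, gap_ip_comm]] at h
  nlinarith

/-- even moments -/
theorem gap_even (ν : (V → Bool) → ℝ) (hν : ∀ σ, 0 < ν σ) (f : (V → Bool) → ℝ) (j : ℕ) :
    ip ν f ((P ν)^[2 * j] f) = ip ν ((P ν)^[j] f) ((P ν)^[j] f) := by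
  rw [gap_iter_sa ν hν, ← Function.iterate_add_apply, two_mul]

/-- odd moments -/
theorem gap_odd (ν : (V → Bool) → ℝ) (hν : ∀ σ, 0 < ν σ) (f : (V → Bool) → ℝ) (j : ℕ) :
    ip ν f ((P ν)^[2 * j + 1] f) = ip ν ((P ν)^[j] f) (P ν ((P ν)^[j] f)) := by
  rw [gap_iter_sa ν hν, ← Function.iterate_succ_apply' (P ν) j f, ← Function.iterate_add_apply,
    show j + j.succ = 2 * j + 1 by omega]

theorem moments_nonneg (ν : (V → Bool) → ℝ) (hν : ∀ σ, 0 < ν σ) (f : (V → Bool) → ℝ) (k : ℕ) :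
    0 ≤ ip ν f ((P ν)^[k] f) := by
  rcases Nat.even_or_odd' k with ⟨j, rfl | rfl⟩
  · rw [gap_even ν hν]; exact gap_ip_self_nonneg ν hν _
  · rw [gap_odd ν hν]; exact ip_P_nonneg ν hν _

/-- Log-convexity of the moments. -/
theorem moments_logconvex (ν : (V → Bool) → ℝ) (hν : ∀ σ, 0 < ν σ) (f : (V → Bool) → ℝ) (k : ℕ) :
    ip ν f ((P ν)^[k + 1] f) ^ 2 ≤ ip ν f ((P ν)^[k] f) * ip ν f ((P ν)^[k + 2] f) := by
  rcases Nat.even_or_odd' k with ⟨j, rfl | rfl⟩
  · rw [gap_even ν hν, gap_odd ν hν, show 2 * j + 2 = 2 * (j + 1) by ring, gap_even ν hν,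
      Function.iterate_succ_apply']
    exact gap_cs0 ν hν _ _
  · rw [show 2 * j + 1 + 1 = 2 * j + 2 by ring, show 2 * j + 1 + 2 = 2 * (j + 1) + 1 by ring,
      gap_odd ν hν, gap_odd ν hν, show 2 * j + 2 = 2 * (j + 1) by ring, gap_even ν hν,
      Function.iterate_succ_apply']
    have h := gap_cs1 ν hν ((P ν)^[j] f) (P ν ((P ν)^[j] f))
    rwa [show ip ν ((P ν)^[j] f) (P ν (P ν ((P ν)^[j] f))) =
      ip ν (P ν ((P ν)^[j] f)) (P ν ((P ν)^[j] f)) by rw [← ip_P ν hν]] at h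

/-! ### Domination by the magnetisation -/

theorem gap_ip_one_pos (J : V → V → ℝ) : 0 < ip (w J) (fun _ => 1) (fun _ => 1) := by
  unfold ip
  refine Finset.sum_pos (fun σ _ => ?_) ⟨fun _ => true, Finset.mem_univ _⟩
  have := w_pos J σ
  simpa using this

theorem gap_iter_mono (J : V → V → ℝ) (hs : ∀ x y, J x y = J y x)
    (hJ : ∀ x y, x ≠ y → 0 ≤ J x y) (f : (V → Bool) → ℝ) (hf : Monotone f) (k : ℕ) :
    Monotone ((P (w J))^[k] f) := by
  induction k with
  | zero => exact hf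
  | succ k ih => rw [Function.iterate_succ_apply']; exact P_mono J hs hJ _ ih

/-- The moments of a centred function are dominated by those of the magnetisation. -/
theorem dom_moments (J : V → V → ℝ) (hs : ∀ x y, J x y = J y x)
    (hJ : ∀ x y, x ≠ y → 0 ≤ J x y) (g : (V → Bool) → ℝ) (hg : ip (w J) g (fun _ => 1) = 0) :
    ∃ M : ℝ, 0 ≤ M ∧ ∀ k, ip (w J) g ((P (w J))^[k] g) ≤
      M ^ 2 * ip (w J) mag ((P (w J))^[k] mag) := by
  obtain ⟨M, hM, hu, hv⟩ := mag_dom g
  refine ⟨M, hM, fun k => ?_⟩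
  set ν := w J with hν
  have hpos : ∀ σ, 0 < ν σ := w_pos J
  have hu' : Monotone (M • mag + g : (V → Bool) → ℝ) := hu
  have hv' : Monotone (M • mag - g : (V → Bool) → ℝ) := hv
  have hm0 : ip ν (mag : (V → Bool) → ℝ) (fun _ => 1) = 0 := ip_odd_one ν (w_even J) _ mag_odd
  have h := fkg_w J hs hJ _ _ hu' (gap_iter_mono J hs hJ _ hv' k)
  rw [← hν, gap_ip_add_left, gap_ip_smul_left, hm0, hg, mul_zero, add_zero, zero_mul] at h
  have h2 : 0 ≤ ip ν (M • mag + g) ((P ν)^[k] (M • mag - g)) := by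
    have h1 := gap_ip_one_pos J
    rw [← hν] at h1
    exact (mul_nonneg_iff_of_pos_left h1).mp h
  rw [gap_iter_sub, gap_iter_smul, gap_ip_sub_right, gap_ip_smul_right, gap_ip_add_left,
    gap_ip_add_left, gap_ip_smul_left, gap_ip_smul_left] at h2
  have hsym : ip ν g ((P ν)^[k] mag) = ip ν mag ((P ν)^[k] g) := by
    rw [← gap_iter_sa ν hpos, gap_ip_comm]
  rw [hsym] at h2
  nlinarith

/-! ### The main statements -/

theorem gap_mag_pos [Nonempty V] (J : V → V → ℝ) : 0 < ip (w J) mag mag := by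
  unfold ip
  refine Finset.sum_pos' (fun σ _ => ?_) ⟨fun _ => true, Finset.mem_univ _, ?_⟩
  · rw [mul_assoc]
    exact mul_nonneg (w_pos J σ).le (mul_self_nonneg _)
  · have h1 := w_pos J (fun _ => true)
    have h2 : (0 : ℝ) < mag (fun _ : V => true) := by
      simp [mag, sp, Fintype.card_pos]
    positivity

theorem gap_iter_odd (ν : (V → Bool) → ℝ) (hν : ∀ σ, 0 < ν σ) (he : IsEven ν)
    (f : (V → Bool) → ℝ) (hf : IsOdd f) (k : ℕ) : IsOdd ((P ν)^[k] f) := by
  induction k with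
  | zero => exact hf
  | succ k ih => rw [Function.iterate_succ_apply']; exact P_odd ν hν he _ ih

/-- Decay of the moments of an odd function. -/
theorem gap_decay [Nonempty V] (ν : (V → Bool) → ℝ) (hν : ∀ σ, 0 < ν σ) (he : IsEven ν) (ρ : ℝ)
    (hρ : 0 ≤ ρ) (h : ∀ f, IsOdd f → ip ν f (P ν f) ≤ ρ * ip ν f f) (f : (V → Bool) → ℝ)
    (hf : IsOdd f) (k : ℕ) : ip ν f ((P ν)^[k] f) ≤ ρ ^ k * ip ν f ((P ν)^[0] f) := by
  have h2 : ∀ g, IsOdd g → ip ν (P ν g) (P ν g) ≤ ρ * ip ν g (P ν g) := by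
    intro g hg
    have hPg := P_odd ν hν he g hg
    have h1 := h (P ν g) hPg
    have hcs := gap_cs1 ν hν g (P ν g)
    rw [show ip ν g (P ν (P ν g)) = ip ν (P ν g) (P ν g) by rw [← ip_P ν hν]] at hcs
    have hgg := ip_P_nonneg ν hν g
    have hx := gap_ip_self_nonneg ν hν (P ν g)
    rcases hx.eq_or_lt with h0 | h0
    · rw [← h0]; positivity
    · have : ip ν (P ν g) (P ν g) ^ 2 ≤ (ρ * ip ν g (P ν g)) * ip ν (P ν g) (P ν g) := by
        refine hcs.trans ?_
        calc ip ν g (P ν g) * ip ν (P ν g) (P ν (P ν g))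
            ≤ ip ν g (P ν g) * (ρ * ip ν (P ν g) (P ν g)) := mul_le_mul_of_nonneg_left h1 hgg
          _ = _ := by ring
      rw [sq] at this
      exact le_of_mul_le_mul_right this h0
  have hstep : ∀ k, ip ν f ((P ν)^[k + 1] f) ≤ ρ * ip ν f ((P ν)^[k] f) := by
    intro k
    rcases Nat.even_or_odd' k with ⟨j, rfl | rfl⟩
    · rw [gap_even ν hν, gap_odd ν hν]
      exact h _ (gap_iter_odd ν hν he f hf j)
    · rw [gap_odd ν hν, show 2 * j + 1 + 1 = 2 * (j + 1) by ring, gap_even ν hν,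
        Function.iterate_succ_apply']
      exact h2 _ (gap_iter_odd ν hν he f hf j)
  induction k with
  | zero => simp
  | succ k ih =>
    calc ip ν f ((P ν)^[k + 1] f) ≤ ρ * ip ν f ((P ν)^[k] f) := hstep k
      _ ≤ ρ * (ρ ^ k * ip ν f ((P ν)^[0] f)) := mul_le_mul_of_nonneg_left ih hρ
      _ = _ := by ring

theorem gap_Dir_sub_const (ν g : (V → Bool) → ℝ) (m : ℝ) :
    Dir ν (g - fun _ => m) = Dir ν g := by
  unfold Dir
  simp

/-- The gap of a ferromagnet is attained on odd functions. -/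
theorem FG_of_OG [Nonempty V] (J : V → V → ℝ) (hs : ∀ x y, J x y = J y x)
    (hJ : ∀ x y, x ≠ y → 0 ≤ J x y) (c : ℝ) (h : OG (w J) c) : FG (w J) c := by
  intro g
  set ν := w J with hν
  have hpos : ∀ σ, 0 < ν σ := w_pos J
  have he : IsEven ν := w_even J
  have h11 : 0 < ip ν (fun _ => 1) (fun _ => 1) := gap_ip_one_pos J
  set m := ip ν g (fun _ => 1) / ip ν (fun _ => 1) (fun _ => 1) with hm
  set g' : (V → Bool) → ℝ := g - fun _ => m with hg'
  have hmc : (fun _ => m : (V → Bool) → ℝ) = m • (fun _ => 1) := by ext; simp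
  have hg0 : ip ν g' (fun _ => 1) = 0 := by
    rw [hg', hmc, gap_ip_sub_left, gap_ip_smul_left, hm, div_mul_cancel₀ _ h11.ne', sub_self]
  have hgg : ip ν g' g' = ip ν g g - ip ν g (fun _ => 1) ^ 2 / ip ν (fun _ => 1) (fun _ => 1) := by
    have e1 : ip ν g' g' = ip ν g g' := by
      conv_lhs => rw [hg', hmc, gap_ip_sub_left, gap_ip_smul_left, ← hmc, ← hg']
      rw [gap_ip_comm ν (fun _ => 1), hg0, mul_zero, sub_zero]
    rw [e1, hg', hmc, gap_ip_sub_right, gap_ip_smul_right, hm]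
    field_simp
  have hρodd : ∀ f, IsOdd f → ip ν f (P ν f) ≤ (1 - c) * ip ν f f := by
    intro f hf
    have h1 := h f hf
    rw [Dir_eq ν hpos] at h1
    linarith
  have hρ : 0 ≤ 1 - c := by
    have h1 := hρodd mag mag_odd
    have h2 := ip_P_nonneg ν hpos mag
    have h3 : 0 < ip ν mag mag := gap_mag_pos J
    by_contra hc
    push Not at hc
    have : (1 - c) * ip ν mag mag < 0 := mul_neg_of_neg_of_pos hc h3
    linarith
  obtain ⟨M, hM, hdom⟩ := dom_moments J hs hJ g' hg0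
  have hfin := moment_compare (fun k => ip ν mag ((P ν)^[k] mag)) (fun k => ip ν g' ((P ν)^[k] g'))
    (1 - c) (M ^ 2) hρ (sq_nonneg M) (fun k => moments_nonneg ν hpos _ k)
    (fun k => moments_logconvex ν hpos _ k)
    (fun k => gap_decay ν hpos he (1 - c) hρ hρodd mag mag_odd k) hdom
  simp only [Function.iterate_one, Function.iterate_zero, id] at hfin
  rw [← hgg, ← gap_Dir_sub_const ν g m, ← hg', Dir_eq ν hpos]
  linarith

theorem OG_of_FG [Nonempty V] (J : V → V → ℝ) (c : ℝ) (h : FG (w J) c) : OG (w J) c := by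
  intro f hf
  have h1 := h f
  rw [ip_odd_one (w J) (w_even J) f hf] at h1
  simpa using h1

end Pool.Agent.H983R2.IM
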