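import Pool.Agent.H983R2.IM.Defs
import Pool.Agent.H983R2.IM.Gap
import Pool.Agent.H983R2.IM.Qco
import Pool.Agent.H983R2.IM.Cha
import Pool.Agent.H983R2.IM.Com
import Pool.Agent.H983R2.IM.Fia

set_option autoImplicit false

namespace Pool.Agent.H983R2.IM

variable {V : Type} [Fintype V] [DecidableEq V]


/-- The gap under weakening of bridges, and quasi-concavity in one coupling. -/
theorem main_bridges (J J' : V → V → ℝ) (hs : ∀ x y, J x y = J y x)
    (hs' : ∀ x y, J' x y = J' y x) (h0 : ∀ x y, 0 ≤ J x y) (h1 : ∀ x y, J x y ≤ J' x y)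
    (hb : ∀ x y, x ≠ y → J x y ≠ J' x y → Br J' x y) : gap J' ≤ gap J := by
  rcases isEmpty_or_nonempty V with hV | hV
  · rw [gap_of_isEmpty, gap_of_isEmpty]
  · rw [le_gap_iff]
    refine FG_of_OG J hs (fun x y _ => h0 x y) _ ?_
    refine OG_bridges J J' hs hs' (fun x y _ => h0 x y) (fun x y _ => h1 x y) hb _ ?_
    exact OG_of_FG J' _ ((le_gap_iff J' _).1 le_rfl)

theorem main_unimodal (J : V → V → ℝ) (hs : ∀ x y, J x y = J y x) (h0 : ∀ x y, 0 ≤ J x y)
    (a b : V) (hab : a ≠ b) (t0 t1 t2 : ℝ) (ht : 0 ≤ t0) (h01 : t0 ≤ t1) (h12 : t1 ≤ t2) :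
    min (gap (setP J a b t0)) (gap (setP J a b t2)) ≤ gap (setP J a b t1) := by
  haveI : Nonempty V := ⟨a⟩
  rw [le_gap_iff]
  have hsym : ∀ x y, setP J a b t1 x y = setP J a b t1 y x := by
    intro x y
    unfold setP
    by_cases h : (x = a ∧ y = b) ∨ (x = b ∧ y = a)
    · rw [if_pos h, if_pos (by tauto)]
    · rw [if_neg h, if_neg (by tauto), hs]
  have hpos : ∀ x y, x ≠ y → 0 ≤ setP J a b t1 x y := by
    intro x y _
    unfold setP
    split_ifs
    · linarith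
    · exact h0 x y
  refine FG_of_OG _ hsym hpos _ ?_
  refine OG_between J a b hab t0 t1 t2 _ h01 h12 ?_ ?_
  · exact OG_of_FG _ _ ((le_gap_iff _ _).1 (min_le_left _ _))
  · exact OG_of_FG _ _ ((le_gap_iff _ _).1 (min_le_right _ _))

theorem main_complete (β β' : ℝ) (h0 : 0 ≤ β) (h1 : β ≤ β') :
    gap (fun _ _ : V => β') ≤ gap (fun _ _ : V => β) := by
  rcases isEmpty_or_nonempty V with hV | hV
  · rw [gap_of_isEmpty, gap_of_isEmpty]
  · rw [le_gap_iff]
    refine FG_complete β β' _ h0 h1 ?_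
    exact OG_of_FG _ _ ((le_gap_iff _ _).1 le_rfl)

end Pool.Agent.H983R2.IM
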