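import Pool.Agent.H983R2.IM.Defs

set_option autoImplicit false

namespace Pool.Agent.H983R2.IM

variable {V : Type} [Fintype V] [DecidableEq V]

/-- In a forest every edge is a bridge of the coupling matrix. -/
theorem Br_of_isAcyclic {n : ℕ} (G : SimpleGraph (Fin n)) [DecidableRel G.Adj]
    (hG : G.IsAcyclic) (t : ℝ) (a b : Fin n) (hab : G.Adj a b) :
    Br (fun x y => if G.Adj x y then t else 0) a b := by
  classical
  have hnr := (SimpleGraph.isAcyclic_iff_forall_adj_isBridge.1 hG) hab
  rw [SimpleGraph.isBridge_iff] at hnr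
  refine ⟨Finset.univ.filter
    (fun x => (G.deleteEdges {s(a, b)}).Reachable a x), ?_, ?_, ?_⟩
  · simp
  · simpa using hnr
  · intro x hx y hy hxy
    rw [Finset.mem_filter] at hx
    have hy' : ¬ (G.deleteEdges {s(a, b)}).Reachable a y := by
      intro h
      exact hy (Finset.mem_filter.2 ⟨Finset.mem_univ _, h⟩)
    have hadj : G.Adj x y := by
      by_contra h
      exact hxy (if_neg h)
    have hs : s(x, y) = s(a, b) := by
      by_contra hne
      apply hy'
      refine hx.2.trans (SimpleGraph.Adj.reachable ?_)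
      rw [SimpleGraph.deleteEdges_adj]
      exact ⟨hadj, by simpa using hne⟩
    rw [Sym2.eq_iff] at hs
    rcases hs with ⟨h1, h2⟩ | ⟨h1, h2⟩
    · exact ⟨h1, h2⟩
    · exfalso
      rw [h1] at hx
      exact hnr hx.2

theorem fic_H {n : ℕ} (G : SimpleGraph (Fin n)) [DecidableRel G.Adj] (t : ℝ)
    (σ : Fin n → Bool) :
    t / 2 * ∑ u : Fin n, ∑ v : Fin n,
      (if G.Adj u v then (if σ u = σ v then (1:ℝ) else -1) else 0) =
    H (fun x y => if G.Adj x y then t else 0) σ := by
  unfold H
  rw [Finset.mul_sum, Finset.sum_div]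
  apply Finset.sum_congr rfl
  intro u _
  rw [Finset.mul_sum, Finset.sum_div]
  apply Finset.sum_congr rfl
  intro v _
  by_cases h : G.Adj u v
  · simp only [h, if_true]
    rcases hu : σ u with _ | _ <;> rcases hv : σ v with _ | _ <;> simp [sp] <;> ring
  · simp [h]

theorem fic_mu {n : ℕ} (G : SimpleGraph (Fin n)) [DecidableRel G.Adj] (t : ℝ)
    (σ : Fin n → Bool) :
    mu G t σ = w (fun x y => if G.Adj x y then t else 0) σ /
      ∑ τ, w (fun x y => if G.Adj x y then t else 0) τ := by
  unfold mu w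
  congr 1
  · rw [fic_H]
  · apply Finset.sum_congr rfl
    intro τ _
    rw [fic_H]

theorem fic_wpos {n : ℕ} (J : Fin n → Fin n → ℝ) (σ : Fin n → Bool) : 0 < w J σ :=
  Real.exp_pos _

theorem fic_Zpos {n : ℕ} (J : Fin n → Fin n → ℝ) : 0 < ∑ τ, w J τ :=
  Finset.sum_pos (fun τ _ => fic_wpos J τ) Finset.univ_nonempty

theorem fic_Var {n : ℕ} (G : SimpleGraph (Fin n)) [DecidableRel G.Adj] (t : ℝ)
    (f : (Fin n → Bool) → ℝ) :
    VarF G t f = (ip (w (fun x y => if G.Adj x y then t else 0)) f f -
      ip (w (fun x y => if G.Adj x y then t else 0)) f (fun _ => 1) ^ 2 /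
      ip (w (fun x y => if G.Adj x y then t else 0)) (fun _ => 1) (fun _ => 1)) /
      ∑ τ, w (fun x y => if G.Adj x y then t else 0) τ := by
  set W := w (fun x y => if G.Adj x y then t else 0) with hW
  set Z := ∑ τ, W τ with hZ
  have hZpos : 0 < Z := fic_Zpos _
  have hZne : Z ≠ 0 := hZpos.ne'
  have h11 : ip W (fun _ => 1) (fun _ => 1) = Z := by
    unfold ip; simp [hZ]
  rw [h11]
  unfold VarF
  have hm : ∑ τ : Fin n → Bool, mu G t τ * f τ = ip W f (fun _ => 1) / Z := by
    unfold ip
    rw [Finset.sum_div]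
    apply Finset.sum_congr rfl
    intro τ _
    rw [fic_mu, ← hW, ← hZ]
    ring
  rw [hm]
  set m := ip W f (fun _ => 1) / Z with hmdef
  have hmZ : ip W f (fun _ => 1) = m * Z := by
    rw [hmdef]; field_simp
  have h1 : ∑ σ : Fin n → Bool, mu G t σ * (f σ - m) ^ 2 =
      (∑ σ, W σ * f σ * f σ) / Z - 2 * m * ((∑ σ, W σ * f σ * 1) / Z) + m ^ 2 * ((∑ σ, W σ) / Z) := by
    rw [Finset.sum_div, Finset.sum_div, Finset.sum_div, Finset.mul_sum, Finset.mul_sum,
      ← Finset.sum_sub_distrib, ← Finset.sum_add_distrib]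
    apply Finset.sum_congr rfl
    intro σ _
    rw [fic_mu, ← hW, ← hZ]
    ring
  rw [h1]
  have h2 : (∑ σ, W σ * f σ * 1) = m * Z := hmZ
  have h3 : (∑ σ, W σ * f σ * f σ) = ip W f f := rfl
  rw [h2, h3, ← hZ, hmZ]
  field_simp
  ring

theorem fic_Dir {n : ℕ} (G : SimpleGraph (Fin n)) [DecidableRel G.Adj] (t : ℝ)
    (f : (Fin n → Bool) → ℝ) :
    DirF G t f = Dir (w (fun x y => if G.Adj x y then t else 0)) f /
      ∑ τ, w (fun x y => if G.Adj x y then t else 0) τ := by
  set W := w (fun x y => if G.Adj x y then t else 0) with hW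
  set Z := ∑ τ, W τ with hZ
  have hZpos : 0 < Z := fic_Zpos _
  have hZne : Z ≠ 0 := hZpos.ne'
  have hWpos : ∀ σ, 0 < W σ := fun σ => fic_wpos _ σ
  unfold DirF Dir
  rw [Fintype.card_fin, Finset.mul_sum, mul_div_assoc, Finset.sum_div, Finset.mul_sum]
  apply Finset.sum_congr rfl
  intro σ _
  rw [Finset.sum_div, Finset.mul_sum, Finset.mul_sum, Finset.mul_sum]
  apply Finset.sum_congr rfl
  intro v _
  have hq : ∀ b : Bool, mu G t (Function.update σ v b) /
      (mu G t (Function.update σ v true) + mu G t (Function.update σ v false)) =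
      W (Function.update σ v b) /
      (W (Function.update σ v true) + W (Function.update σ v false)) := by
    intro b
    rw [fic_mu, fic_mu, fic_mu, ← hW, ← hZ, ← add_div, div_div_div_cancel_right₀ hZne]
  have hsum : ∑ b : Bool, mu G t (Function.update σ v b) /
      (mu G t (Function.update σ v true) + mu G t (Function.update σ v false)) *
      (f σ - f (Function.update σ v b)) ^ 2 =
      W (fl v σ) / (W σ + W (fl v σ)) * (f σ - f (fl v σ)) ^ 2 := by
    rw [Fintype.sum_bool, hq, hq]
    unfold fl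
    rcases hv : σ v with _ | _
    · have e : Function.update σ v false = σ := by
        rw [← hv]; exact Function.update_eq_self v σ
      rw [e]
      simp only [Bool.not_false, sub_self]
      rw [add_comm (W σ)]
      ring
    · have e : Function.update σ v true = σ := by
        rw [← hv]; exact Function.update_eq_self v σ
      rw [e]
      simp only [Bool.not_true, sub_self]
      ring
  rw [hsum, fic_mu, ← hW, ← hZ]
  have h1 : W σ + W (fl v σ) ≠ 0 := by
    have := hWpos σ; have := hWpos (fl v σ); positivity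
  field_simp

theorem FG_iff_frozen {n : ℕ} (hn : 0 < n) (G : SimpleGraph (Fin n)) [DecidableRel G.Adj] (t c : ℝ) :
    (∀ f : (Fin n → Bool) → ℝ, c * VarF G t f ≤ DirF G t f) ↔
      FG (w (fun x y => if G.Adj x y then t else 0)) c := by
  have _ := hn
  unfold FG
  apply forall_congr'
  intro f
  rw [fic_Var, fic_Dir, ← mul_div_assoc,
    div_le_div_iff_of_pos_right (fic_Zpos _)]

end Pool.Agent.H983R2.IM
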