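import Pool.Agent.H983R2.IM.Defs
import Pool.Agent.H983R2.IM.Gap
import Pool.Agent.H983R2.IM.Cha
import Pool.Agent.H983R2.IM.Com
import Pool.Agent.H983R2.IM.Fic

set_option autoImplicit false

namespace Pool.Agent.H983R2.IM

variable {V : Type} [Fintype V] [DecidableEq V]













/- END UPSTREAM -/

theorem fid_ip_smul (ν f g : (V → Bool) → ℝ) (K : ℝ) :
    ip (fun σ => K * ν σ) f g = K * ip ν f g := by
  unfold ip
  rw [Finset.mul_sum]
  exact Finset.sum_congr rfl fun σ _ => by ring

theorem fid_Dir_smul (ν f : (V → Bool) → ℝ) (K : ℝ) (hK : 0 < K) :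
    Dir (fun σ => K * ν σ) f = K * Dir ν f := by
  unfold Dir
  have h : ∀ σ, ∀ v, K * ν σ * (K * ν (fl v σ)) / (K * ν σ + K * ν (fl v σ)) * (f σ - f (fl v σ)) ^ 2 =
      K * (ν σ * ν (fl v σ) / (ν σ + ν (fl v σ)) * (f σ - f (fl v σ)) ^ 2) := by
    intro σ v
    have e : K * ν σ * (K * ν (fl v σ)) / (K * ν σ + K * ν (fl v σ)) =
        K * (ν σ * ν (fl v σ) / (ν σ + ν (fl v σ))) := by
      rw [← mul_add, show K * ν σ * (K * ν (fl v σ)) = K * (K * (ν σ * ν (fl v σ))) by ring,
        mul_div_mul_left _ _ hK.ne', mul_div_assoc]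
    rw [e, mul_assoc]
  simp only [h, ← Finset.mul_sum]
  ring

theorem fid_OG_smul (ν : (V → Bool) → ℝ) (K c : ℝ) (hK : 0 < K) (h : OG ν c) :
    OG (fun σ => K * ν σ) c := by
  intro f hf
  rw [fid_ip_smul, fid_Dir_smul ν f K hK]
  have := mul_le_mul_of_nonneg_left (h f hf) hK.le
  linarith

theorem fid_FG_smul (ν : (V → Bool) → ℝ) (K c : ℝ) (hK : 0 < K) (h : FG ν c) :
    FG (fun σ => K * ν σ) c := by
  intro f
  rw [fid_ip_smul, fid_ip_smul, fid_ip_smul, fid_Dir_smul ν f K hK]
  have e : (K * ip ν f fun _ => 1) ^ 2 / (K * ip ν (fun _ => 1) fun _ => 1) =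
      K * ((ip ν f fun _ => 1) ^ 2 / ip ν (fun _ => 1) fun _ => 1) := by
    rw [show (K * ip ν f fun _ => 1) ^ 2 = K * (K * (ip ν f fun _ => 1) ^ 2) by ring,
      mul_div_mul_left _ _ hK.ne', mul_div_assoc]
  rw [e, ← mul_sub]
  have := mul_le_mul_of_nonneg_left (h f) hK.le
  linarith

/-- the weight of the complete graph, with and without the diagonal -/
theorem fid_w_top {n : ℕ} (G : SimpleGraph (Fin n)) [DecidableRel G.Adj] (hG : G = ⊤) (t : ℝ)
    (σ : Fin n → Bool) :
    w (fun _ _ : Fin n => t) σ =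
      Real.exp (n * t / 2) * w (fun x y => if G.Adj x y then t else 0) σ := by
  subst hG
  unfold w H
  rw [← Real.exp_add]
  congr 1
  have h : ∀ i j : Fin n, t * sp (σ i) * sp (σ j) =
      (if (⊤ : SimpleGraph (Fin n)).Adj i j then t else 0) * sp (σ i) * sp (σ j) +
        (if i = j then t else 0) := by
    intro i j
    by_cases hij : i = j
    · subst hij
      have hs : sp (σ i) * sp (σ i) = 1 := by
        unfold sp
        split_ifs <;> norm_num
      rw [if_neg (by simp), if_pos rfl, mul_assoc, hs]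
      ring
    · rw [if_pos (by simpa using hij), if_neg hij]
      ring
  have h2 : (∑ i : Fin n, ∑ j : Fin n, t * sp (σ i) * sp (σ j)) =
      (∑ i : Fin n, ∑ j : Fin n,
        (if (⊤ : SimpleGraph (Fin n)).Adj i j then t else 0) * sp (σ i) * sp (σ j)) + n * t := by
    simp only [h, Finset.sum_add_distrib]
    congr 1
    simp
  rw [h2]
  ring

theorem fid_zero (G : SimpleGraph (Fin 0)) [DecidableRel G.Adj] (β c : ℝ)
    (f : (Fin 0 → Bool) → ℝ) : c * VarF G β f ≤ DirF G β f := by
  have hV : VarF G β f = 0 := by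
    unfold VarF mu
    simp
  have hD : DirF G β f = 0 := by
    unfold DirF
    simp
  rw [hV, hD, mul_zero]

theorem main_graph (n : ℕ) (G : SimpleGraph (Fin n)) [DecidableRel G.Adj]
    (hG : G.IsAcyclic ∨ G = ⊤) (β β' : ℝ) (h0 : 0 ≤ β) (h1 : β ≤ β') (c : ℝ)
    (h : ∀ f : (Fin n → Bool) → ℝ, c * VarF G β' f ≤ DirF G β' f) :
    ∀ f : (Fin n → Bool) → ℝ, c * VarF G β f ≤ DirF G β f := by
  rcases Nat.eq_zero_or_pos n with hn | hn
  · subst hn
    exact fun f => fid_zero G β c f
  have : Nonempty (Fin n) := ⟨⟨0, hn⟩⟩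
  rw [FG_iff_frozen hn] at h ⊢
  have h2 := OG_of_FG _ c h
  have hs : ∀ (t : ℝ) (x y : Fin n), (if G.Adj x y then t else 0) = (if G.Adj y x then t else 0) := by
    intro t x y
    by_cases hxy : G.Adj x y
    · rw [if_pos hxy, if_pos hxy.symm]
    · rw [if_neg hxy, if_neg (fun h => hxy h.symm)]
  rcases hG with hG | hG
  · have hpos : ∀ x y : Fin n, x ≠ y → 0 ≤ (if G.Adj x y then β else 0) := by
      intro x y _
      split_ifs
      · exact h0
      · exact le_refl 0
    refine FG_of_OG _ (hs β) hpos c ?_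
    refine OG_bridges _ (fun x y => if G.Adj x y then β' else 0) (hs β) (hs β') hpos ?_ ?_ c h2
    · intro x y _
      split_ifs
      · exact h1
      · exact le_refl 0
    · intro x y _ hne
      by_cases hxy : G.Adj x y
      · exact Br_of_isAcyclic G hG β' x y hxy
      · rw [if_neg hxy, if_neg hxy] at hne
        exact absurd rfl hne
  · have h3 : OG (w (fun _ _ : Fin n => β')) c := by
      have := fid_OG_smul _ (Real.exp (n * β' / 2)) c (Real.exp_pos _) h2
      have e : (w (fun _ _ : Fin n => β')) = fun σ => Real.exp (n * β' / 2) *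
          w (fun x y => if G.Adj x y then β' else 0) σ := by
        funext σ
        exact fid_w_top G hG β' σ
      rw [e]
      exact this
    have h4 := FG_complete β β' c h0 h1 h3
    have h5 := fid_FG_smul _ (Real.exp (-(n * β / 2))) c (Real.exp_pos _) h4
    have e : (fun σ => Real.exp (-(n * β / 2)) * w (fun _ _ : Fin n => β) σ) =
        w (fun x y => if G.Adj x y then β else 0) := by
      funext σ
      rw [fid_w_top G hG β σ, ← mul_assoc, ← Real.exp_add, neg_add_cancel, Real.exp_zero, one_mul]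
    rw [e] at h5
    exact h5

end Pool.Agent.H983R2.IM
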